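import Pool.Agent.H96.MC.Targets2
import Pool.Agent.H96.MC.Basic

/-!
# Module MOVE (board mc_modules of helper96, MP_5da387_pr)
-/

namespace Pool.Agent.H65.MC

open Pool.Agent.H96.MC

open Classical in
/-- one sub-pattern with prescribed totals -/
lemma sub_pat {d q : ℕ} : ∀ (k : ℕ) (p : Pat d q) (σ : Fin q → ℕ), ∑ i, σ i = k → σ ≤ tot p →
    ∃ o : Pat d q, o ≤ p ∧ tot o = σ := by
  intro k
  induction k with
  | zero =>
    intro p σ hk _
    refine ⟨0, zero_le, ?_⟩
    rw [tot_zero]
    funext i
    have := (Finset.sum_eq_zero_iff.mp hk) i (Finset.mem_univ i)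
    rw [this]
    rfl
  | succ k ih =>
    intro p σ hk hσ
    have hex : ∃ i, σ i ≠ 0 := by
      by_contra hcon
      push Not at hcon
      have : ∑ i, σ i = 0 := Finset.sum_eq_zero (fun i _ => hcon i)
      omega
    obtain ⟨i, hi⟩ := hex
    have hpi : 0 < tot p i := lt_of_lt_of_le (Nat.pos_of_ne_zero hi) (hσ i)
    have hx : ∃ x ∈ p.support, x.2 = i := by
      by_contra hcon
      push Not at hcon
      have : tot p i = 0 := by
        unfold tot
        rw [Finsupp.sum]
        apply Finset.sum_eq_zero
        intro x hx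
        rw [if_neg (hcon x hx)]
      omega
    obtain ⟨x, hxs, hx2⟩ := hx
    have hpx : 1 ≤ p x := Nat.one_le_iff_ne_zero.mpr (Finsupp.mem_support_iff.mp hxs)
    have hle : Finsupp.single x 1 ≤ p := by
      rw [Finsupp.single_le_iff]
      exact hpx
    set p' : Pat d q := p - Finsupp.single x 1 with hp'
    have hpp : p' + Finsupp.single x 1 = p := tsub_add_cancel_of_le hle
    have htp : tot p = tot p' + Pi.single i 1 := by
      rw [← hpp, tot_add, tot_single, hx2]
    set σ' : Fin q → ℕ := σ - Pi.single i 1 with hσ'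
    have hsle : Pi.single i 1 ≤ σ := by
      intro j
      by_cases hj : j = i
      · subst hj
        rw [Pi.single_eq_same]
        exact Nat.one_le_iff_ne_zero.mpr hi
      · rw [Pi.single_eq_of_ne hj]
        exact Nat.zero_le _
    have hss : σ' + Pi.single i 1 = σ := tsub_add_cancel_of_le hsle
    have hk' : ∑ j, σ' j = k := by
      have h1 : ∑ j, σ j = ∑ j, σ' j + ∑ j, (Pi.single i 1 : Fin q → ℕ) j := by
        rw [← Finset.sum_add_distrib]
        apply Finset.sum_congr rfl
        intro j _
        rw [← hss]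
        rfl
      rw [Finset.sum_pi_single' i 1 Finset.univ, if_pos (Finset.mem_univ _), hk] at h1
      omega
    have hle' : σ' ≤ tot p' := by
      have h1 : σ' + Pi.single i 1 ≤ tot p' + Pi.single i 1 := by
        rw [hss, ← htp]; exact hσ
      exact le_of_add_le_add_right h1
    obtain ⟨o, ho1, ho2⟩ := ih p' σ' hk' hle'
    refine ⟨o + Finsupp.single x 1, ?_, ?_⟩
    · rw [← hpp]
      exact add_le_add_left ho1 _
    · rw [tot_add, tot_single, hx2, ho2, hss]

open Classical in
/-- several disjoint sub-patterns with prescribed totals -/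
lemma sub_pats {d q : ℕ} {ι : Type} (s : Finset ι) (p : Pat d q) (σ : ι → Fin q → ℕ)
    (h : ∑ k ∈ s, σ k ≤ tot p) :
    ∃ o : ι → Pat d q, ∑ k ∈ s, o k ≤ p ∧ ∀ k ∈ s, tot (o k) = σ k := by
  induction s using Finset.induction_on with
  | empty =>
    refine ⟨fun _ => 0, ?_, fun k hk => absurd hk (Finset.notMem_empty k)⟩
    rw [Finset.sum_empty]
    exact zero_le
  | insert a s ha ih =>
    rw [Finset.sum_insert ha] at h
    obtain ⟨o, ho1, ho2⟩ := ih (le_trans (le_add_of_nonneg_left (fun _ => Nat.zero_le _)) h)
    set r : Pat d q := p - ∑ k ∈ s, o k with hr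
    have hrr : r + ∑ k ∈ s, o k = p := tsub_add_cancel_of_le ho1
    have htot : tot (∑ k ∈ s, o k) = ∑ k ∈ s, σ k := by
      have h1 : ∀ t : Finset ι, tot (∑ k ∈ t, o k) = ∑ k ∈ t, tot (o k) := by
        intro t
        induction t using Finset.induction_on with
        | empty => rw [Finset.sum_empty, Finset.sum_empty, tot_zero]
        | insert b t hb ih2 => rw [Finset.sum_insert hb, Finset.sum_insert hb, tot_add, ih2]
      rw [h1]
      exact Finset.sum_congr rfl (fun k hk => ho2 k hk)
    have htr : tot p = tot r + ∑ k ∈ s, σ k := by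
      rw [← htot, ← tot_add, hrr]
    have hle : σ a ≤ tot r := by
      rw [htr] at h
      exact le_of_add_le_add_right h
    obtain ⟨x, hx1, hx2⟩ := sub_pat _ r (σ a) rfl hle
    refine ⟨fun k => if k = a then x else o k, ?_, ?_⟩
    · rw [Finset.sum_insert ha, if_pos rfl]
      have h1 : ∑ k ∈ s, (if k = a then x else o k) = ∑ k ∈ s, o k := by
        apply Finset.sum_congr rfl
        intro k hk
        rw [if_neg]
        rintro rfl
        exact ha hk
      rw [h1, ← hrr]
      exact add_le_add_left hx1 _
    · intro k hk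
      rcases Finset.mem_insert.mp hk with h1 | h1
      · subst h1
        simp only
        exact hx2
      · have : k ≠ a := by
          rintro rfl
          exact ha h1
        simp only [if_neg this]
        exact ho2 k h1

lemma adj_update {d : ℕ} {b b' : Cell d} (h : Adj b b') :
    ∃ (i : Fin d) (s : Bool), b' = Function.update b i (if s then b i + 1 else b i - 1) := by
  unfold Adj at h
  have hex : ∃ i, (b i - b' i).natAbs ≠ 0 := by
    by_contra hcon
    push Not at hcon
    have : ∑ i, (b i - b' i).natAbs = 0 := Finset.sum_eq_zero (fun i _ => hcon i)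
    omega
  obtain ⟨i, hi⟩ := hex
  have h1 := Finset.add_sum_erase Finset.univ (fun i => (b i - b' i).natAbs) (Finset.mem_univ i)
  rw [h] at h1
  have h2 : (b i - b' i).natAbs = 1 := by
    have : 1 ≤ (b i - b' i).natAbs := Nat.one_le_iff_ne_zero.mpr hi
    omega
  have h3 : ∑ j ∈ Finset.univ.erase i, (b j - b' j).natAbs = 0 := by
    omega
  have h4 : ∀ j, j ≠ i → b' j = b j := by
    intro j hj
    have h5 := (Finset.sum_eq_zero_iff.mp h3) j (Finset.mem_erase.mpr ⟨hj, Finset.mem_univ j⟩)
    omega
  rcases (by omega : b' i = b i + 1 ∨ b' i = b i - 1) with h5 | h5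
  · refine ⟨i, true, ?_⟩
    funext j
    by_cases hj : j = i
    · subst hj
      rw [Function.update_self, if_pos rfl]
      exact h5
    · rw [Function.update_of_ne hj]
      exact h4 j hj
  · refine ⟨i, false, ?_⟩
    funext j
    by_cases hj : j = i
    · subst hj
      rw [Function.update_self]
      exact h5
    · rw [Function.update_of_ne hj]
      exact h4 j hj

lemma card_nb {d : ℕ} (b : Cell d) : (nb b).card ≤ 2 * d := by
  classical
  have h1 : nb b ⊆ (Finset.univ : Finset (Fin d × Bool)).image
      (fun p => Function.update b p.1 (if p.2 then b p.1 + 1 else b p.1 - 1)) := by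
    intro b' hb'
    unfold nb at hb'
    obtain ⟨i, s, h⟩ := adj_update (Finset.mem_filter.mp hb').2
    rw [Finset.mem_image]
    exact ⟨(i, s), Finset.mem_univ _, h.symm⟩
  refine (Finset.card_le_card h1).trans (Finset.card_image_le.trans ?_)
  rw [Finset.card_univ, Fintype.card_prod, Fintype.card_fin, Fintype.card_bool]
  omega

lemma adj_mem_nb {d : ℕ} {b b' : Cell d} (h : Adj b b') : b' ∈ nb b := by
  classical
  unfold nb
  rw [Finset.mem_filter]
  refine ⟨?_, h⟩
  rw [mem_cube, sn_le_iff]
  intro i
  unfold Adj at h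
  have h1 := Finset.single_le_sum (f := fun i => (b i - b' i).natAbs)
    (fun i _ => Nat.zero_le _) (Finset.mem_univ i)
  simp only [h] at h1
  simp only [Pi.sub_apply]
  omega

lemma tot_rst {d q : ℕ} (n : Cfg d q) (P : Finset (Cell d)) (i : Fin q) :
    tot (rst n P) i = ∑ z ∈ P, n (z, i) := by
  classical
  unfold tot
  rw [Finsupp.sum_of_support_subset (s := P ×ˢ Finset.univ)]
  · rw [Finset.sum_product]
    apply Finset.sum_congr rfl
    intro z hz
    rw [Finset.sum_eq_single i]
    · rw [if_pos rfl, rst_apply, if_pos hz]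
    · intro j _ hj
      rw [if_neg hj]
    · intro hcon
      exact absurd (Finset.mem_univ _) hcon
  · intro x hx
    rw [Finsupp.mem_support_iff, rst_apply] at hx
    rw [Finset.mem_product]
    refine ⟨?_, Finset.mem_univ _⟩
    by_contra hcon
    rw [if_neg hcon] at hx
    exact hx rfl
  · intro x _
    split_ifs <;> rfl

theorem move : T_MOVE := by
  classical
  intro d q l E n σ hl hσE hσ
  have hkey : ∀ b : Cell d, ∃ o : Cell d → Pat d q,
      ∑ b' ∈ nb b, o b' ≤ rst n (cellsOf l b) ∧ ∀ b' ∈ nb b, tot (o b') = σ b b' := by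
    intro b
    by_cases hall : ∀ b', σ b b' = 0
    · refine ⟨fun _ => 0, ?_, ?_⟩
      · rw [Finset.sum_const_zero]
        exact zero_le
      · intro b' _
        rw [tot_zero, hall]
    · push Not at hall
      obtain ⟨b0, hb0⟩ := hall
      have hbig := (hσ b b0 hb0).2
      apply sub_pats
      intro i
      rw [tot_rst, Finset.sum_apply]
      calc ∑ b' ∈ nb b, σ b b' i ≤ ∑ _b' ∈ nb b, E := Finset.sum_le_sum (fun b' _ => hσE b b' i)
        _ = (nb b).card * E := by rw [Finset.sum_const, smul_eq_mul]
        _ ≤ 2 * d * E := Nat.mul_le_mul_right E (card_nb b)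
        _ ≤ bc l n (b, i) := hbig i
  choose o ho1 ho2 using hkey
  refine ⟨fun b b' => if b' ∈ nb b then o b b' else 0, ⟨?_, ?_, ?_, ?_⟩, ?_⟩
  · intro b b' x hx
    by_cases hb : b' ∈ nb b
    · simp only [if_pos hb] at hx
      have h1 : o b b' x ≠ 0 := Finsupp.mem_support_iff.mp hx
      have h2 : o b b' ≤ rst n (cellsOf l b) :=
        (Finset.single_le_sum (f := fun b' => o b b') (fun _ _ => zero_le) hb).trans (ho1 b)
      have h3 := h2 x
      rw [rst_apply] at h3
      by_cases h4 : x.1 ∈ cellsOf l b
      · exact (mem_cellsOf hl).mp h4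
      · rw [if_neg h4] at h3
        omega
    · simp only [if_neg hb] at hx
      simp at hx
  · intro b b' hne
    by_cases hb : b' ∈ nb b
    · unfold nb at hb
      exact (Finset.mem_filter.mp hb).2
    · simp only [if_neg hb] at hne
      exact absurd rfl hne
  · intro b b' i
    by_cases hb : b' ∈ nb b
    · simp only [if_pos hb]
      rw [ho2 b b' hb]
      exact hσE b b' i
    · simp only [if_neg hb]
      rw [tot_zero]
      exact Nat.zero_le _
  · intro b x
    have h1 : ∑ b' ∈ nb b, (if b' ∈ nb b then o b b' else 0) x = (∑ b' ∈ nb b, o b b') x := by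
      rw [Finsupp.finsetSum_apply]
      apply Finset.sum_congr rfl
      intro b' hb
      rw [if_pos hb]
    rw [h1]
    exact ho1 b x
  · intro b b'
    by_cases hb : b' ∈ nb b
    · simp only [if_pos hb]
      exact ho2 b b' hb
    · simp only [if_neg hb]
      rw [tot_zero]
      by_contra hcon
      exact hb (adj_mem_nb (hσ b b' (fun h => hcon h.symm)).1)

end Pool.Agent.H65.MC
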