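import Pool.Agent.H89.MC.Targets

/-!
# Module AVP (board mc_modules, MP_5da387_pr)
-/

namespace Pool.Agent.H65.MC

open MeasureTheory ProbabilityTheory Pool.Agent.H96.MC Filter

theorem avp (hSHX : T_SHX) (hCLO : T_CLO) (hAVG : T_AVG) : T_AVP := by
  classical
  intro d q D M τ Φ hM hΦ hmat hempty htail
  obtain ⟨hcont, _, _, _, hnum, hshmat⟩ := hSHX d q
  obtain ⟨hclo1, hclo2, _, hmeasMat, _, hmeasNum⟩ := hCLO d q D.V
  obtain ⟨hA1, hA2, hA3, hA4⟩ := hAVG d q
  have hprob : IsProbabilityMeasure (pois D d) := by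
    unfold pois
    infer_instance
  have hgm : ∀ J, Measurable fun n : Cfg d q => ((n, Φ J n) : XX d q) := fun J =>
    measurable_id.prodMk (hΦ J)
  have hshm : ∀ c : Cell d, Measurable (shX (q := q) c) := fun c => (hcont c).measurable
  set ν : ℕ → Measure (XX d q) := fun J => (pois D d).map (fun n => (n, Φ J n)) with hν
  have hνp : ∀ J, IsProbabilityMeasure (ν J) := fun J =>
    Measure.isProbabilityMeasure_map (hgm J).aemeasurable
  have hνfst : ∀ J, (ν J).map Prod.fst = pois D d := by
    intro J
    rw [hν]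
    simp only
    rw [Measure.map_map measurable_fst (hgm J)]
    have : (Prod.fst ∘ fun n : Cfg d q => ((n, Φ J n) : XX d q)) = id := rfl
    rw [this, Measure.map_id]
  -- integrals with respect to `ν J`
  have hint : ∀ J (f : XX d q → ENNReal), Measurable f → ∀ c : Cell d,
      ∫⁻ ω, f (shX c ω) ∂(ν J) = ∫⁻ n, f (shX c (n, Φ J n)) ∂(pois D d) := by
    intro J f hf c
    have hfc : Measurable fun ω : XX d q => f (shX c ω) := hf.comp (hshm c)
    exact lintegral_map hfc (hgm J)
  have hM2 : Tendsto (fun J => M J / 2) atTop atTop :=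
    (Nat.tendsto_div_const_atTop (by norm_num)).comp hM
  refine ⟨fun J => avg (M J / 2) (ν J), fun J => hA1 _ _ (hνp J),
    fun J => hA3 D _ _ (hνfst J), ?_, ?_, ?_, ?_⟩
  · intro J
    set Z : Set (XX d q) := {ω | IsMat D.V ω}ᶜ with hZ
    have hZm : MeasurableSet Z := hmeasMat.compl
    have h1 := hA2 (M J / 2) (ν J) (Z.indicator 1) 0 (measurable_one.indicator hZm) (by
      intro c _
      rw [hint J _ (measurable_one.indicator hZm) c]
      have : ∀ n : Cfg d q, Z.indicator (1 : XX d q → ENNReal) (shX c (n, Φ J n)) = 0 := by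
        intro n
        apply Set.indicator_of_notMem
        intro hcon
        exact hcon ((hshmat D.V c (n, Φ J n)).1 (hmat J n))
      simp only [this, lintegral_zero]
      exact le_rfl)
    rw [lintegral_indicator_one hZm] at h1
    rw [ae_iff]
    exact le_antisymm h1 bot_le
  · intro x
    set Ax : Set (XX d q) := {ω | x.2 < ω.1 x.1 ∧ ω.2 x = ∅} with hAx
    have hAxm : MeasurableSet Ax := by
      have h1 := (hclo1 x.1 {k | x.2 < k}).isOpen.measurableSet
      have h2 := (hclo2 x {∅}).isOpen.measurableSet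
      have h3 : Ax = {ω : XX d q | ω.1 x.1 ∈ {k | x.2 < k}} ∩ {ω : XX d q | ω.2 x ∈ ({∅} : Set _)} := by
        ext ω
        simp [hAx]
      rw [h3]
      exact h1.inter h2
    have hev : ∀ᶠ J in atTop, avg (M J / 2) (ν J) Ax ≤
        pois D d {n | ∃ x : Pt d q, sn x.1.1 ≤ M J ∧ x.2 < n x.1 ∧ Φ J n x = ∅} := by
      filter_upwards [hM2.eventually_ge_atTop (sn x.1.1)] with J hJ
      have h1 := hA2 (M J / 2) (ν J) (Ax.indicator 1)
        (pois D d {n | ∃ x : Pt d q, sn x.1.1 ≤ M J ∧ x.2 < n x.1 ∧ Φ J n x = ∅})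
        (measurable_one.indicator hAxm) (by
        intro c hc
        rw [hint J _ (measurable_one.indicator hAxm) c]
        have hpre : (fun n : Cfg d q => Ax.indicator (1 : XX d q → ENNReal) (shX c (n, Φ J n)))
            = ((fun n : Cfg d q => shX c ((n, Φ J n) : XX d q)) ⁻¹' Ax).indicator 1 := by
          funext n
          rfl
        have hpm : MeasurableSet ((fun n : Cfg d q => shX c ((n, Φ J n) : XX d q)) ⁻¹' Ax) :=
          ((hshm c).comp (hgm J)) hAxm
        rw [hpre]
        have hli : lintegral (pois D d)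
            (((fun n : Cfg d q => shX c ((n, Φ J n) : XX d q)) ⁻¹' Ax).indicator 1)
            = pois D d ((fun n : Cfg d q => shX c ((n, Φ J n) : XX d q)) ⁻¹' Ax) :=
          lintegral_indicator_one hpm
        rw [hli]
        apply measure_mono
        intro n hn
        obtain ⟨h3, h4⟩ := hn
        refine ⟨trP c x, ?_, h3, ?_⟩
        · have := sn_add_le x.1.1 c
          show sn (x.1.1 + c) ≤ M J
          omega
        · have h5 : (Φ J n (trP c x)).image (trP (-c)) = ∅ := h4
          exact Finset.image_eq_empty.mp h5)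
      rw [lintegral_indicator_one hAxm] at h1
      exact h1
    exact tendsto_of_tendsto_of_tendsto_of_le_of_le' tendsto_const_nhds hempty
      (Eventually.of_forall (fun J => bot_le)) hev
  · intro c r
    filter_upwards [hM2.eventually_ge_atTop (sn c)] with J hJ
    refine hA2 (M J / 2) (ν J) (fun ω => (numFarAt c r ω : ENNReal)) (τ r) (hmeasNum c r) ?_
    intro a ha
    rw [hint J _ (hmeasNum c r) a]
    simp only [hnum a c _ r]
    apply htail
    have := sn_add_le c a
    omega
  · intro a ε hε
    obtain ⟨m₀, hm₀⟩ := hA4 a ε hε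
    filter_upwards [hM2.eventually_ge_atTop m₀] with J hJ
    intro A hA
    exact hm₀ (M J / 2) hJ (ν J) A (hνp J) hA

end Pool.Agent.H65.MC
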