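import Pool.Agent.H8.MC.Targets

/-!
# Board mcl_modules, module GRD: the rules are definable in monadic second-order logic
-/

set_option autoImplicit false

namespace Pool.Agent.H65.MC

open Pool.Agent.H8.MC Pool.Agent.H69.VR Pool.Agent.H8.VR Pool.Agent.H69.Sp

/-- the properties of assignments -/
abbrev Pr : Type 1 := (A : Type) → (ℕ → A → Prop) → (A → A → Prop) → (ℕ → A) → (ℕ → Set A) → Prop

theorem MD_congr {p q : Pr} (h : MD p) (hpq : ∀ A P E e V, p A P E e V ↔ q A P E e V) : MD q := by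
  have : p = q := by
    funext A P E e V
    exact propext (hpq A P E e V)
  rwa [← this]

instance : Finite Lc := by
  refine Finite.of_injective (fun x : Lc => (x.l, x.r, x.b, x.t)) ?_
  rintro ⟨a, b, c, d⟩ ⟨a', b', c', d'⟩ h
  simp only [Prod.mk.injEq] at h
  obtain ⟨rfl, rfl, rfl, rfl⟩ := h
  rfl

/-- the data of a vertex -/
abbrev XX (Q : Type) : Type := Option (ZMod 3 × ZMod 3) × Lc × Q

/-- the code of the data -/
noncomputable def cd {Q : Type} [Finite Q] (x : XX Q) : ℕ := (Finite.equivFin (XX Q) x : ℕ) + 1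

theorem cd_inj {Q : Type} [Finite Q] {x y : XX Q} (h : cd x = cd y) : x = y := by
  unfold cd at h
  exact (Finite.equivFin (XX Q)).injective (Fin.ext (by omega))

theorem cd_ne {Q : Type} [Finite Q] (x : XX Q) : cd x ≠ 0 := Nat.succ_ne_zero _

section

variable (Q : Type) [Finite Q] {A : Type}

/-- the data of two vertices satisfy `F` -/
def D2 (P : ℕ → A → Prop) (F : XX Q → XX Q → Prop) (a b : A) : Prop :=
  ∃ x y, F x y ∧ P (cd x) a ∧ P (cd y) b

/-- the data of a vertex satisfy `F` -/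
def D1 (P : ℕ → A → Prop) (F : XX Q → Prop) (a : A) : Prop := ∃ x, F x ∧ P (cd x) a

/-- the components -/
def Cm' (P : ℕ → A → Prop) (E : A → A → Prop) (u v : A) : Prop :=
  ∀ Y : Set A, u ∈ Y → (∀ a b, a ∈ Y → E a b → D2 Q P (fun x y => x.1 = y.1) a b → b ∈ Y) → v ∈ Y

/-- edges between components -/
def Sc' (P : ℕ → A → Prop) (E : A → A → Prop) (d : ZMod 3 × ZMod 3) (u v : A) : Prop :=
  ∃ a b, Cm' Q P E u a ∧ Cm' Q P E v b ∧ E a b ∧
    D2 Q P (fun x y => ∃ p, x.1 = some p ∧ y.1 = some (p + d)) a b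

/-- the steps -/
def Ec' (P : ℕ → A → Prop) (E : A → A → Prop) (d : ZMod 3 × ZMod 3) (x y : A) : Prop :=
  P 0 x ∧ P 0 y ∧ Sc' Q P E d x y

/-- all rules -/
def Big (U : Bool → Bool → Bool → Bool → Q → Prop) (Hh Vv : Q → Q → Prop) (P : ℕ → A → Prop)
    (E : A → A → Prop) : Prop :=
  (∀ a, ∃ x : XX Q, P (cd x) a ∧ ∀ y : XX Q, y ≠ x → ¬ P (cd y) a) ∧
  (∀ x y, Ec' Q P E (1, 0) x y → D2 Q P (fun s t => s.2.1.r = false ∧ t.2.1.l = false ∧
    s.2.1.b = t.2.1.b ∧ s.2.1.t = t.2.1.t) x y) ∧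
  (∀ x y, Ec' Q P E (0, 1) x y → D2 Q P (fun s t => s.2.1.t = false ∧ t.2.1.b = false ∧
    s.2.1.l = t.2.1.l ∧ s.2.1.r = t.2.1.r) x y) ∧
  (∀ x y y', Ec' Q P E (1, 0) x y → Ec' Q P E (1, 0) x y' → y = y') ∧
  (∀ x x' y, Ec' Q P E (1, 0) x y → Ec' Q P E (1, 0) x' y → x = x') ∧
  (∀ x y y', Ec' Q P E (0, 1) x y → Ec' Q P E (0, 1) x y' → y = y') ∧
  (∀ x x' y, Ec' Q P E (0, 1) x y → Ec' Q P E (0, 1) x' y → x = x') ∧
  (∀ x, P 0 x → D1 Q P (fun s => s.2.1.r = false) x → ∃ y, Ec' Q P E (1, 0) x y) ∧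
  (∀ x, P 0 x → D1 Q P (fun s => s.2.1.t = false) x → ∃ y, Ec' Q P E (0, 1) x y) ∧
  (∃ x, P 0 x ∧ D1 Q P (fun s => s.2.1.l = true ∧ s.2.1.b = true) x) ∧
  (∀ x y z, Ec' Q P E (1, 0) x y → Ec' Q P E (0, 1) x z →
    ∃ w, Ec' Q P E (1, 0) z w ∧ Ec' Q P E (0, 1) y w) ∧
  (∀ Y : Set A, (∃ x, x ∈ Y ∧ P 0 x) → (∀ x y, Ec' Q P E (1, 0) x y ∨ Ec' Q P E (0, 1) x y →
    ((x ∈ Y → y ∈ Y) ∧ (y ∈ Y → x ∈ Y))) → ∀ x, P 0 x → x ∈ Y) ∧
  (∀ x, P 0 x → D1 Q P (fun s => U s.2.1.l s.2.1.r s.2.1.b s.2.1.t s.2.2) x) ∧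
  (∀ x y, Ec' Q P E (1, 0) x y → D2 Q P (fun s t => Hh s.2.2 t.2.2) x y) ∧
  ∀ x y, Ec' Q P E (0, 1) x y → D2 Q P (fun s t => Vv s.2.2 t.2.2) x y

variable {Q} in
theorem D2_iff {P : ℕ → A → Prop} {dat : A → XX Q} (h : ∀ x a, P (cd x) a ↔ x = dat a)
    (F : XX Q → XX Q → Prop) (a b : A) : D2 Q P F a b ↔ F (dat a) (dat b) := by
  unfold D2
  simp only [h]
  constructor
  · rintro ⟨x, y, hF, rfl, rfl⟩
    exact hF
  · exact fun hF => ⟨_, _, hF, rfl, rfl⟩

variable {Q} in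
theorem D1_iff {P : ℕ → A → Prop} {dat : A → XX Q} (h : ∀ x a, P (cd x) a ↔ x = dat a)
    (F : XX Q → Prop) (a : A) : D1 Q P F a ↔ F (dat a) := by
  unfold D1
  simp only [h]
  constructor
  · rintro ⟨x, hF, rfl⟩
    exact hF
  · exact fun hF => ⟨_, hF, rfl⟩

variable {Q} in
theorem Cm_iff {P : ℕ → A → Prop} {dat : A → XX Q} (h : ∀ x a, P (cd x) a ↔ x = dat a)
    (G : SimpleGraph A) (u v : A) :
    Cm' Q P G.Adj u v ↔ Cm G (fun a => (dat a).1) u v := by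
  constructor
  · intro hc
    exact hc {w | Cm G (fun a => (dat a).1) u w} Relation.ReflTransGen.refl fun a b ha hab hd =>
      Relation.ReflTransGen.tail ha ⟨hab, (D2_iff h _ a b).1 hd⟩
  · intro hc Y hu hY
    induction hc with
    | refl => exact hu
    | tail _ hbc ih => exact hY _ _ ih hbc.1 ((D2_iff h _ _ _).2 hbc.2)

variable {Q} in
theorem Sc_iff {P : ℕ → A → Prop} {dat : A → XX Q} (h : ∀ x a, P (cd x) a ↔ x = dat a)
    (G : SimpleGraph A) (d : ZMod 3 × ZMod 3) (u v : A) :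
    Sc' Q P G.Adj d u v ↔ Pool.Agent.H8.MC.Sc G (fun a => (dat a).1) d u v := by
  unfold Sc' Pool.Agent.H8.MC.Sc
  simp only [Cm_iff h G, D2_iff h]
  constructor
  · rintro ⟨a, b, h1, h2, h3, p, h4, h5⟩
    exact ⟨a, b, p, h1, h2, h3, h4, h5⟩
  · rintro ⟨a, b, p, h1, h2, h3, h4, h5⟩
    exact ⟨a, b, h1, h2, h3, p, h4, h5⟩

variable {Q} in
theorem big_iff (U : Bool → Bool → Bool → Bool → Q → Prop) (Hh Vv : Q → Q → Prop)
    {P : ℕ → A → Prop} {dat : A → XX Q} (h : ∀ x a, P (cd x) a ↔ x = dat a) (G : SimpleGraph A) :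
    Big Q U Hh Vv P G.Adj ↔ CRule U Hh Vv G (fun a => (dat a).1) (P 0) (fun a => (dat a).2.1)
      (fun a => (dat a).2.2) := by
  have hE : ∀ x y, Ec' Q P G.Adj (1, 0) x y ↔ Ec G (fun a => (dat a).1) (P 0) x y := fun x y => by
    unfold Ec' Ec
    rw [Sc_iff h]
  have hN : ∀ x y, Ec' Q P G.Adj (0, 1) x y ↔ Nc G (fun a => (dat a).1) (P 0) x y := fun x y => by
    unfold Ec' Nc
    rw [Sc_iff h]
  unfold Big
  simp only [hE, hN, D2_iff h, D1_iff h]
  constructor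
  · rintro ⟨-, h1, h2, h3, h4, h5, h6, h7, h8, h9, h10, h11, h12, h13, h14⟩
    exact ⟨h1, h2, h3, h4, h5, h6, h7, h8, h9, h10,
      fun Y hY hc => h11 Y (by obtain ⟨x, hx, hr⟩ := hY; exact ⟨x, hx, hr⟩)
        fun x y hxy => ⟨(hc x y hxy).1, (hc x y hxy).2⟩, h12, h13, h14⟩
  · intro hR
    refine ⟨fun a => ⟨dat a, (h _ _).2 rfl, fun y hy hy' => hy ((h _ _).1 hy')⟩, hR.eE, hR.eN, hR.fE,
      hR.iE, hR.fN, hR.iN, hR.xE, hR.xN, hR.cor, hR.sq,
      fun Y hY hc => hR.con Y (by obtain ⟨x, hx, hr⟩ := hY; exact ⟨x, hx, hr⟩)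
        fun x y hxy => ⟨(hc x y hxy).1, (hc x y hxy).2⟩, hR.un, hR.hh, hR.vv⟩

end

section

variable (hM : T_MSC) (Q : Type) [Finite Q]

include hM

theorem md_D2 (F : XX Q → XX Q → Prop) (i j : ℕ) :
    MD fun A P _ e _ => D2 Q P F (e i) (e j) := by
  obtain ⟨hun, hbi, heq, hmem, hco, hneg, hand, hor, himp, hex, hall, hexS, hallS, hfall, hfex, -, -⟩ :=
    hM
  exact hfex _ _ fun x => hfex _ _ fun y => hand _ _ (hco _) (hand _ _ (hun _ _) (hun _ _))

theorem md_D1 (F : XX Q → Prop) (i : ℕ) : MD fun A P _ e _ => D1 Q P F (e i) := by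
  obtain ⟨hun, hbi, heq, hmem, hco, hneg, hand, hor, himp, hex, hall, hexS, hallS, hfall, hfex, -, -⟩ :=
    hM
  exact hfex _ _ fun x => hand _ _ (hco _) (hun _ _)

theorem md_Cm (i j : ℕ) (hi : i < 6) (hj : j < 6) :
    MD fun A P E e _ => Cm' Q P E (e i) (e j) := by
  have hD := md_D2 hM Q (fun x y => x.1 = y.1) 6 7
  obtain ⟨hun, hbi, heq, hmem, hco, hneg, hand, hor, himp, hex, hall, hexS, hallS, hfall, hfex, -, -⟩ :=
    hM
  have i6 : i ≠ 6 := by omega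
  have i7 : i ≠ 7 := by omega
  refine MD_congr (hallS 0 _ (himp _ _ (hmem i 0) (himp _ _ (hall 6 _ (hall 7 _
    (himp _ _ (hmem 6 0) (himp _ _ (hbi 6 7) (himp _ _ hD (hmem 7 0)))))) (hmem j 0)))) ?_
  intro A P E e V
  unfold Cm'
  simp [Function.update_apply]

theorem md_Sc (d : ZMod 3 × ZMod 3) (i j : ℕ) (hi : i < 4) (hj : j < 4) :
    MD fun A P E e _ => Sc' Q P E d (e i) (e j) := by
  have hD := md_D2 hM Q (fun x y => ∃ p, x.1 = some p ∧ y.1 = some (p + d)) 4 5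
  have hC1 := md_Cm hM Q i 4 (by omega) (by omega)
  have hC2 := md_Cm hM Q j 5 (by omega) (by omega)
  obtain ⟨hun, hbi, heq, hmem, hco, hneg, hand, hor, himp, hex, hall, hexS, hallS, hfall, hfex, -, -⟩ :=
    hM
  have i4 : i ≠ 4 := by omega
  have i5 : i ≠ 5 := by omega
  have j4 : j ≠ 4 := by omega
  have j5 : j ≠ 5 := by omega
  refine MD_congr (hex 4 _ (hex 5 _ (hand _ _ hC1 (hand _ _ hC2 (hand _ _ (hbi 4 5) hD))))) ?_
  intro A P E e V
  unfold Sc'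
  simp [Function.update_apply, i4, i5, j4, j5]

theorem md_Ec (d : ZMod 3 × ZMod 3) (i j : ℕ) (hi : i < 4) (hj : j < 4) :
    MD fun A P E e _ => Ec' Q P E d (e i) (e j) := by
  have hS := md_Sc hM Q d i j hi hj
  obtain ⟨hun, hbi, heq, hmem, hco, hneg, hand, hor, himp, hex, hall, hexS, hallS, hfall, hfex, -, -⟩ :=
    hM
  exact hand _ _ (hun 0 i) (hand _ _ (hun 0 j) hS)

theorem md_Big (U : Bool → Bool → Bool → Bool → Q → Prop) (Hh Vv : Q → Q → Prop) :
    MD fun A P E _ _ => Big Q U Hh Vv P E := by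
  have hE : ∀ i j, i < 4 → j < 4 → MD fun A P E e _ => Ec' Q P E (1, 0) (e i) (e j) :=
    fun i j hi hj => md_Ec hM Q _ i j hi hj
  have hN : ∀ i j, i < 4 → j < 4 → MD fun A P E e _ => Ec' Q P E (0, 1) (e i) (e j) :=
    fun i j hi hj => md_Ec hM Q _ i j hi hj
  have hD2 := fun F i j => md_D2 hM Q F i j
  have hD1 := fun F i => md_D1 hM Q F i
  obtain ⟨hun, hbi, heq, hmem, hco, hneg, hand, hor, himp, hex, hall, hexS, hallS, hfall, hfex, -, -⟩ :=
    hM
  unfold Big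
  refine hand _ _ ?_ (hand _ _ ?_ (hand _ _ ?_ (hand _ _ ?_ (hand _ _ ?_ (hand _ _ ?_ (hand _ _ ?_
    (hand _ _ ?_ (hand _ _ ?_ (hand _ _ ?_ (hand _ _ ?_ (hand _ _ ?_ (hand _ _ ?_
      (hand _ _ ?_ ?_)))))))))))))
  · refine MD_congr (hall 0 _ (hfex (XX Q) _ fun x => hand _ _ (hun (cd x) 0)
      (hfall (XX Q) _ fun y => himp _ _ (hco (y ≠ x)) (hneg _ (hun (cd y) 0))))) ?_
    intro A P E e V
    simp
  · refine MD_congr (hall 0 _ (hall 1 _ (himp _ _ (hE 0 1 (by omega) (by omega))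
      (hD2 (fun s t => s.2.1.r = false ∧ t.2.1.l = false ∧
        s.2.1.b = t.2.1.b ∧ s.2.1.t = t.2.1.t) 0 1)))) ?_
    intro A P E e V
    simp [Function.update_apply]
  · refine MD_congr (hall 0 _ (hall 1 _ (himp _ _ (hN 0 1 (by omega) (by omega))
      (hD2 (fun s t => s.2.1.t = false ∧ t.2.1.b = false ∧
        s.2.1.l = t.2.1.l ∧ s.2.1.r = t.2.1.r) 0 1)))) ?_
    intro A P E e V
    simp [Function.update_apply]
  · refine MD_congr (hall 0 _ (hall 1 _ (hall 2 _ (himp _ _ (hE 0 1 (by omega) (by omega))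
      (himp _ _ (hE 0 2 (by omega) (by omega)) (heq 1 2)))))) ?_
    intro A P E e V
    simp [Function.update_apply]
  · refine MD_congr (hall 0 _ (hall 1 _ (hall 2 _ (himp _ _ (hE 0 2 (by omega) (by omega))
      (himp _ _ (hE 1 2 (by omega) (by omega)) (heq 0 1)))))) ?_
    intro A P E e V
    simp [Function.update_apply]
  · refine MD_congr (hall 0 _ (hall 1 _ (hall 2 _ (himp _ _ (hN 0 1 (by omega) (by omega))
      (himp _ _ (hN 0 2 (by omega) (by omega)) (heq 1 2)))))) ?_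
    intro A P E e V
    simp [Function.update_apply]
  · refine MD_congr (hall 0 _ (hall 1 _ (hall 2 _ (himp _ _ (hN 0 2 (by omega) (by omega))
      (himp _ _ (hN 1 2 (by omega) (by omega)) (heq 0 1)))))) ?_
    intro A P E e V
    simp [Function.update_apply]
  · refine MD_congr (hall 0 _ (himp _ _ (hun 0 0) (himp _ _ (hD1 (fun s => s.2.1.r = false) 0)
      (hex 1 _ (hE 0 1 (by omega) (by omega)))))) ?_
    intro A P E e V
    simp [Function.update_apply]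
  · refine MD_congr (hall 0 _ (himp _ _ (hun 0 0) (himp _ _ (hD1 (fun s => s.2.1.t = false) 0)
      (hex 1 _ (hN 0 1 (by omega) (by omega)))))) ?_
    intro A P E e V
    simp [Function.update_apply]
  · refine MD_congr (hex 0 _ (hand _ _ (hun 0 0)
      (hD1 (fun s => s.2.1.l = true ∧ s.2.1.b = true) 0))) ?_
    intro A P E e V
    simp
  · refine MD_congr (hall 0 _ (hall 1 _ (hall 2 _ (himp _ _ (hE 0 1 (by omega) (by omega))
      (himp _ _ (hN 0 2 (by omega) (by omega)) (hex 3 _ (hand _ _ (hE 2 3 (by omega) (by omega))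
        (hN 1 3 (by omega) (by omega))))))))) ?_
    intro A P E e V
    simp [Function.update_apply]
  · refine MD_congr (hallS 0 _ (himp _ _ (hex 0 _ (hand _ _ (hmem 0 0) (hun 0 0)))
      (himp _ _ (hall 0 _ (hall 1 _ (himp _ _ (hor _ _ (hE 0 1 (by omega) (by omega))
        (hN 0 1 (by omega) (by omega))) (hand _ _ (himp _ _ (hmem 0 0) (hmem 1 0))
          (himp _ _ (hmem 1 0) (hmem 0 0))))))
        (hall 0 _ (himp _ _ (hun 0 0) (hmem 0 0)))))) ?_
    intro A P E e V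
    simp [Function.update_apply]
  · refine MD_congr (hall 0 _ (himp _ _ (hun 0 0)
      (hD1 (fun s => U s.2.1.l s.2.1.r s.2.1.b s.2.1.t s.2.2) 0))) ?_
    intro A P E e V
    simp
  · refine MD_congr (hall 0 _ (hall 1 _ (himp _ _ (hE 0 1 (by omega) (by omega))
      (hD2 (fun s t => Hh s.2.2 t.2.2) 0 1)))) ?_
    intro A P E e V
    simp [Function.update_apply]
  · refine MD_congr (hall 0 _ (hall 1 _ (himp _ _ (hN 0 1 (by omega) (by omega))
      (hD2 (fun s t => Vv s.2.2 t.2.2) 0 1)))) ?_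
    intro A P E e V
    simp [Function.update_apply]

end

theorem pf_GRD (hM : T_MSC) : T_GRD := by
  intro Q _ U Hh Vv
  obtain ⟨Ψ, hΨ, hS⟩ := md_Big hM Q U Hh Vv
  refine ⟨Ψ, hΨ, ?_⟩
  intro n G R rp hn hR
  have hR0 : R 0 = G.Adj := by
    funext a b
    exact propext (hR a b)
  constructor
  · rintro ⟨P, hP, hSat⟩
    have hB := (hS (Fin n) P R (fun _ => ⟨0, hn⟩) (fun _ => ∅)).1 (hSat _ _)
    rw [hR0] at hB
    choose dat hdat using hB.1
    have h : ∀ x a, P (cd x) a ↔ x = dat a := by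
      intro x a
      constructor
      · intro hx
        by_contra hne
        exact (hdat a).2 x hne hx
      · rintro rfl
        exact (hdat a).1
    have hC := (big_iff U Hh Vv h G).1 hB
    have hP0 : P 0 = rp := by
      funext a
      exact propext (hP a)
    rw [hP0] at hC
    exact ⟨_, _, _, hC⟩
  · rintro ⟨co, lb, ti, hC⟩
    let P : ℕ → Fin n → Prop := fun k a => if k = 0 then rp a else
      k = cd ((co a, lb a, ti a) : XX Q)
    have h : ∀ (x : XX Q) a, P (cd x) a ↔ x = (co a, lb a, ti a) := by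
      intro x a
      simp only [P, if_neg (cd_ne x)]
      exact ⟨fun hx => cd_inj hx, fun hx => by rw [hx]⟩
    have hP0 : P 0 = rp := by
      funext a
      simp [P]
    refine ⟨P, fun a => by rw [hP0], fun e V => ?_⟩
    rw [hS, hR0]
    refine (big_iff U Hh Vv h G).2 ?_
    rw [hP0]
    exact hC

end Pool.Agent.H65.MC
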