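import Pool.Agent.H65.MC.SUM

/-!
Module INC: increment of a binary number.
-/

set_option autoImplicit false

namespace Pool.Agent.H65.MC

open Pool.Agent.H79.MC

theorem ex_ite {W : ℕ} {e : Exp} {p q : Prog} {s : St} {T : ℕ} {Q : St → Prop}
    (h : mx s e ≤ W) (h1 : ev s e ≠ 0 → Ex W p s T Q) (h2 : ev s e = 0 → Ex W q s T Q) :
    Ex W (.ite e p q) s (T + 1) Q := by
  by_cases he : ev s e = 0
  · obtain ⟨t, s', hr, ht, hQ⟩ := h2 he
    exact ⟨t + 1, s', Run.ite_false h he hr, by omega, hQ⟩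
  · obtain ⟨t, s', hr, ht, hQ⟩ := h1 he
    exact ⟨t + 1, s', Run.ite_true h he hr, by omega, hQ⟩

theorem agree_seta {R K : Finset ℕ} {s s' : St} (h : Agree R K s s') {k : ℕ} (hk : k ∈ K)
    (i v : ℕ) : Agree R K s (s'.seta k i v) := by
  refine ⟨h.1, fun j hj => ?_⟩
  have hne : j ≠ k := fun e => hj (e ▸ hk)
  show Function.update s'.a k (Function.update (s'.a k) i v) j = s.a j
  rw [Function.update_of_ne hne]
  exact h.2 j hj

theorem seta_r (s : St) (k i v : ℕ) : (s.seta k i v).r = s.r := rfl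

theorem seta_a (s : St) (k i v j : ℕ) : (s.seta k i v).a k j = if j = i then v else s.a k j := by
  by_cases h : j = i
  · subst h
    simp [St.seta]
  · simp [St.seta, h]

/-! ### arithmetic -/

theorem bits_le (X i : ℕ) : bits X i ≤ 1 := by
  unfold bits
  omega

/-- the low digits -/
theorem low_mod {X st : ℕ} (h0 : X % 2 ^ st = 0) : ∀ p, st ≤ p →
    (∀ i, st ≤ i → i < p → bits X i = 1) → X % 2 ^ p + 2 ^ st = 2 ^ p := by
  intro p hp
  induction p, hp using Nat.le_induction with
  | base => intro _; rw [h0, zero_add]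
  | succ p hp ih =>
    intro h
    have h1 := ih fun i hi hip => h i hi (by omega)
    have h2 := h p hp (by omega)
    unfold bits at h2
    rw [Nat.mod_pow_succ, h2, pow_succ]
    omega

theorem bits_low {X st i : ℕ} (h0 : X % 2 ^ st = 0) (hi : i < st) : bits X i = 0 := by
  unfold bits
  obtain ⟨y, hy⟩ := Nat.dvd_of_mod_eq_zero h0
  obtain ⟨d, hd⟩ : ∃ d, st = i + (d + 1) := ⟨st - i - 1, by omega⟩
  rw [hy, hd, pow_add, mul_assoc, Nat.mul_div_cancel_left _ (by positivity), pow_succ]
  have : 2 ^ d * 2 * y = 2 * (2 ^ d * y) := by ring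
  rw [this]
  omega

/-- the sum -/
theorem add_form {X st p : ℕ} (h0 : X % 2 ^ st = 0) (hp : st ≤ p)
    (h : ∀ i, st ≤ i → i < p → bits X i = 1) (hb : bits X p = 0) :
    X = 2 ^ (p + 1) * (X / 2 ^ (p + 1)) + (2 ^ p - 2 ^ st) ∧
    X + 2 ^ st = 2 ^ (p + 1) * (X / 2 ^ (p + 1)) + 2 ^ p := by
  have h1 := low_mod h0 p hp h
  have h2 : X % 2 ^ (p + 1) = X % 2 ^ p := by
    unfold bits at hb
    rw [Nat.mod_pow_succ, hb, mul_zero, add_zero]
  have h3 := Nat.div_add_mod X (2 ^ (p + 1))
  rw [h2] at h3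
  constructor <;> omega

theorem bits_of_form (u p i : ℕ) : bits (2 ^ (p + 1) * u + 2 ^ p) i =
    if i < p then 0 else if i = p then 1 else bits (2 ^ (p + 1) * u) i := by
  split_ifs with h1 h2
  · refine bits_low (st := p) ?_ h1
    have : 2 ^ (p + 1) * u + 2 ^ p = 2 ^ p * (2 * u + 1) := by rw [pow_succ]; ring
    rw [this, Nat.mul_mod_right]
  · subst h2
    unfold bits
    have : 2 ^ (i + 1) * u + 2 ^ i = 2 ^ i * (2 * u + 1) := by rw [pow_succ]; ring
    rw [this, Nat.mul_div_cancel_left _ (by positivity)]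
    omega
  · unfold bits
    obtain ⟨d, hd⟩ : ∃ d, i = p + 1 + d := ⟨i - (p + 1), by omega⟩
    rw [hd, pow_add 2 (p + 1) d, ← Nat.div_div_eq_div_mul, ← Nat.div_div_eq_div_mul,
      Nat.mul_div_cancel_left _ (by positivity), Nat.mul_add_div (by positivity),
      Nat.div_eq_of_lt (Nat.pow_lt_pow_right (by norm_num) (Nat.lt_succ_self p)), add_zero]

theorem bits_high {X st p i : ℕ} (h0 : X % 2 ^ st = 0) (hp : st ≤ p)
    (h : ∀ i, st ≤ i → i < p → bits X i = 1) (hb : bits X p = 0) (hi : p < i) :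
    bits X i = bits (2 ^ (p + 1) * (X / 2 ^ (p + 1))) i := by
  have hX := (add_form h0 hp h hb).1
  unfold bits
  obtain ⟨d, hd⟩ : ∃ d, i = p + 1 + d := ⟨i - (p + 1), by omega⟩
  rw [hd, pow_add 2 (p + 1) d, ← Nat.div_div_eq_div_mul, ← Nat.div_div_eq_div_mul,
    Nat.mul_div_cancel_left _ (by positivity)]

/-- the state of the loop -/
def Iv (k X st len : ℕ) (s : St) (κ : ℕ) (s' : St) : Prop :=
  Agree {11, 12} {k} s s' ∧
    ((s'.r 12 = 0 ∧ s'.r 11 = st + κ ∧ st + κ ≤ len ∧
        (∀ i, st ≤ i → i < st + κ → bits X i = 1) ∧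
        ∀ i, s'.a k i = if st ≤ i ∧ i < st + κ then 0 else s.a k i) ∨
      ∃ p, s'.r 12 = 1 ∧ s'.r 11 = p ∧ st ≤ p ∧ p < len ∧
        (∀ i, st ≤ i → i < p → bits X i = 1) ∧ bits X p = 0 ∧
        ∀ i, s'.a k i = if st ≤ i ∧ i < p then 0 else if i = p then 1 else s.a k i)

theorem pf_inc (hWR : T_WR) : T_INC := by
  intro W k es el s X st len hes hmes hel hst hW hcell hX h0
  have m11 : (11 : ℕ) ∈ ({11, 12} : Finset ℕ) := by decide
  have m12 : (12 : ℕ) ∈ ({11, 12} : Finset ℕ) := by decide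
  have mk : k ∈ ({k} : Finset ℕ) := Finset.mem_singleton_self k
  have hbd : ∀ κ s', Iv k X st len s κ s' → s'.r 11 ≤ len ∧ s'.r 12 ≤ 1 := by
    intro κ s' h
    obtain ⟨-, ⟨h1, h2, h3, -⟩ | ⟨p, h1, h2, -, h4, -⟩⟩ := h
    · constructor <;> omega
    · constructor <;> omega
  have hw : ∀ s', s' = (s.setr 11 st).setr 12 0 →
      Ex W (.wh (.mul (.sub el (.reg 11)) (.sub (.lit 1) (.reg 12)))
      (.ite (.get k (.reg 11))
        (.seq (.put k (.reg 11) (.lit 0)) (.set 11 (.add (.reg 11) (.lit 1))))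
        (.seq (.put k (.reg 11) (.lit 1)) (.set 12 (.lit 1))))) s' (len * (3 + 1) + 1)
      fun s'' => (∃ κ ≤ len, Iv k X st len s κ s'') ∧
        ev s'' (.mul (.sub el (.reg 11)) (.sub (.lit 1) (.reg 12))) = 0 := by
    rintro s' rfl
    refine hWR W _ _ _ 3 len (Iv k X st len s) ?_ ?_ ?_
    · refine ⟨agree_setr (agree_setr (agree_refl _ _ _) m11 _) m12 _, Or.inl ⟨setr_same _ _ _, ?_,
        by omega, fun i h1 h2 => by omega, fun i => ?_⟩⟩
      · rw [setr_ne _ (by norm_num), setr_same, add_zero]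
      · rw [if_neg (by omega)]
        rfl
    · intro κ s' h
      obtain ⟨h1, h2⟩ := hbd κ s' h
      obtain ⟨e1, e2⟩ := hel s' h.1
      constructor
      · show max (max (max (mx s' el) (s'.r 11)) (max 1 (s'.r 12)))
          ((ev s' el - s'.r 11) * (1 - s'.r 12)) ≤ W
        rw [e1]
        have h3 : (len - s'.r 11) * (1 - s'.r 12) ≤ len * 1 :=
          Nat.mul_le_mul (Nat.sub_le _ _) (Nat.sub_le _ _)
        refine max_le (max_le (max_le e2 (by omega)) (max_le (by omega) (by omega))) (by omega)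
      · intro hne
        have hne' : (len - s'.r 11) * (1 - s'.r 12) ≠ 0 := by
          have : ev s' (.mul (.sub el (.reg 11)) (.sub (.lit 1) (.reg 12))) =
            (ev s' el - s'.r 11) * (1 - s'.r 12) := rfl
          rw [this, e1] at hne
          exact hne
        have hne1 := left_ne_zero_of_mul hne'
        have hne2 := right_ne_zero_of_mul hne'
        obtain ⟨-, ⟨g1, g2, g3, -⟩ | ⟨p, g1, -⟩⟩ := h
        · omega
        · omega
    · intro κ s' h hne
      obtain ⟨h1, h2⟩ := hbd κ s' h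
      obtain ⟨e1, e2⟩ := hel s' h.1
      have hne' : (len - s'.r 11) * (1 - s'.r 12) ≠ 0 := by
        have : ev s' (.mul (.sub el (.reg 11)) (.sub (.lit 1) (.reg 12))) =
          (ev s' el - s'.r 11) * (1 - s'.r 12) := rfl
        rw [this, e1] at hne
        exact hne
      have hne1 := left_ne_zero_of_mul hne'
      have hne2 := right_ne_zero_of_mul hne'
      obtain ⟨ha, ⟨g1, g2, g3, g4, g5⟩ | ⟨p, g1, -⟩⟩ := h
      swap
      · omega
      have hlt : st + κ < len := by omega
      have hc : s'.a k (s'.r 11) = bits X (st + κ) := by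
        rw [g2, g5, if_neg (by omega), hcell _ hlt]
      have hb := bits_le X (st + κ)
      have hm11 : mx s' (.reg 11) ≤ W := by
        show s'.r 11 ≤ W
        omega
      refine ex_ite (T := 2) ?_ ?_ ?_
      · show max (s'.r 11) (s'.a k (s'.r 11)) ≤ W
        rw [hc]
        exact max_le (by omega) (by omega)
      · intro hbit
        have hbit' : bits X (st + κ) = 1 := by
          have : ev s' (.get k (.reg 11)) = s'.a k (s'.r 11) := rfl
          rw [this, hc] at hbit
          omega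
        refine ex_seq (T₁ := 1) (T₂ := 1) (ex_put k (.reg 11) (.lit 0) s' hm11 (Nat.zero_le _)) ?_
        rintro s'' rfl
        refine ex_mono (ex_set 11 (.add (.reg 11) (.lit 1)) _ ?_) le_rfl ?_
        · show max (max (s'.r 11) 1) (s'.r 11 + 1) ≤ W
          refine max_le (max_le (by omega) (by omega)) (by omega)
        · rintro s3 rfl
          refine ⟨agree_setr (agree_seta ha mk _ _) m11 _, Or.inl ⟨?_, ?_, by omega, ?_, ?_⟩⟩
          · rw [setr_ne _ (by norm_num), seta_r, g1]
          · rw [setr_same]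
            show s'.r 11 + 1 = _
            omega
          · intro i hi1 hi2
            rcases Nat.lt_or_ge i (st + κ) with h | h
            · exact g4 i hi1 h
            · have : i = st + κ := by omega
              rw [this, hbit']
          · intro i
            rw [setr_a, seta_a]
            show (if i = s'.r 11 then 0 else s'.a k i) = _
            rw [g2, g5]
            split_ifs <;> first | rfl | omega
      · intro hbit
        have hbit' : bits X (st + κ) = 0 := by
          have : ev s' (.get k (.reg 11)) = s'.a k (s'.r 11) := rfl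
          rw [this, hc] at hbit
          exact hbit
        refine ex_seq (T₁ := 1) (T₂ := 1) (ex_put k (.reg 11) (.lit 1) s' hm11
          (show (1 : ℕ) ≤ W by omega)) ?_
        rintro s'' rfl
        refine ex_mono (ex_set 12 (.lit 1) _ (show (1 : ℕ) ≤ W by omega)) le_rfl ?_
        rintro s3 rfl
        refine ⟨agree_setr (agree_seta ha mk _ _) m12 _, Or.inr ⟨st + κ, setr_same _ _ _, ?_,
          by omega, hlt, g4, hbit', ?_⟩⟩
        · rw [setr_ne _ (by norm_num), seta_r, g2]
        · intro i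
          rw [setr_a, seta_a]
          show (if i = s'.r 11 then 1 else s'.a k i) = _
          rw [g2, g5]
          split_ifs <;> first | rfl | omega
  have h1 : Ex W (.set 11 es) s 1 fun s' => s' = s.setr 11 st := by
    have := ex_set (W := W) 11 es s hmes
    rwa [hes] at this
  have h2 : ∀ s', s' = s.setr 11 st → Ex W (.set 12 (.lit 0)) s' 1 fun s'' =>
      s'' = (s.setr 11 st).setr 12 0 := by
    rintro s' rfl
    exact ex_set 12 (.lit 0) _ (Nat.zero_le _)
  refine ex_mono (ex_seq h1 fun s' hs' => ex_seq (h2 s' hs') fun s'' hs'' => hw s'' hs'')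
    (by omega) ?_
  rintro s' ⟨⟨κ, hκ, hI⟩, hz⟩
  obtain ⟨e1, e2⟩ := hel s' hI.1
  obtain ⟨b1, b2⟩ := hbd κ s' hI
  have hz' : (len - s'.r 11) * (1 - s'.r 12) = 0 := by
    have : ev s' (.mul (.sub el (.reg 11)) (.sub (.lit 1) (.reg 12))) =
      (ev s' el - s'.r 11) * (1 - s'.r 12) := rfl
    rw [this, e1] at hz
    exact hz
  obtain ⟨ha, ⟨g1, g2, g3, g4, g5⟩ | ⟨p, g1, g2, g3, g4, g5, g6, g7⟩⟩ := hI
  · have hlen : st + κ = len := by
      rcases Nat.mul_eq_zero.1 hz' with h | h
      · omega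
      · omega
    refine ⟨ha, fun i hi => ?_, Or.inr ⟨g1, by omega, ?_⟩⟩
    · rw [g5, if_neg (by omega)]
    · have h3 := low_mod h0 len hst (fun i hi1 hi2 => g4 i hi1 (by omega))
      rw [Nat.mod_eq_of_lt hX] at h3
      omega
  · obtain ⟨f1, f2⟩ := add_form h0 g3 g5 g6
    obtain ⟨u, hu⟩ : ∃ u, u = X / 2 ^ (p + 1) := ⟨_, rfl⟩
    rw [← hu] at f1 f2
    refine ⟨ha, fun i hi => ?_, Or.inl ⟨g1, ?_, ?_, by omega, by omega, ?_, ?_⟩⟩
    · rw [g7, if_neg (by omega), if_neg (by omega)]
    · rw [f2]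
      obtain ⟨d, hd⟩ : ∃ d, len = p + 1 + d := ⟨len - (p + 1), by omega⟩
      have hu2 : u < 2 ^ d := by
        rw [hu, Nat.div_lt_iff_lt_mul (by positivity), mul_comm, ← pow_add, ← hd]
        exact hX
      have h5 : 2 ^ (p + 1) * (u + 1) ≤ 2 ^ (p + 1) * 2 ^ d := Nat.mul_le_mul_left _ hu2
      rw [hd, pow_add 2 (p + 1) d]
      have h6 : 2 ^ p < 2 ^ (p + 1) := Nat.pow_lt_pow_right (by norm_num) (Nat.lt_succ_self p)
      rw [mul_add, mul_one] at h5
      omega
    · intro i hi
      rw [g7, f2, bits_of_form]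
      by_cases c1 : st ≤ i ∧ i < p
      · rw [if_pos c1, if_pos c1.2]
      · rw [if_neg c1]
        by_cases c2 : i = p
        · rw [if_pos c2, if_neg (by omega), if_pos c2]
        · rw [if_neg c2]
          by_cases c3 : i < p
          · rw [if_pos c3, hcell i hi, bits_low h0 (by omega)]
          · rw [if_neg c3, if_neg c2, hcell i hi, hu]
            exact bits_high h0 g3 g5 g6 (by omega)
    · rw [g2, f2]
      have : 2 ^ (p + 1) * u + 2 ^ p = 2 ^ p * (2 * u + 1) := by rw [pow_succ]; ring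
      rw [this, Nat.mul_mod_right]
    · rw [g2, f2, bits_of_form, if_neg (by omega), if_pos rfl]

end Pool.Agent.H65.MC
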