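import Pool.Agent.H8.MC.Targets

/-!
# Board mcl_modules, module NLM: empty relations do not matter
-/

set_option autoImplicit false

namespace Pool.Agent.H65.MC

open Pool.Agent.H8.MC Pool.Agent.H69.VR Pool.Agent.H8.VR Pool.Agent.H69.Sp

theorem pf_NLM : T_NLM := by
  intro k m V R X c h
  induction h with
  | pt a c => exact fun _ => NLC.pt a c
  | op X Y c c₁ c₂ h₁ h₂ hd l r f g hR hX hY ih1 ih2 =>
    intro hE
    refine NLC.op X Y c c₁ c₂ (ih1 hE) (ih2 hE) hd (fun i p q => i = 0 ∧ l 0 p q)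
      (fun i p q => i = 0 ∧ r 0 p q) f g ?_ hX hY
    intro a ha b hb i hi
    by_cases h0 : i = 0
    · subst h0
      have := hR a ha b hb 0 one_pos
      exact ⟨by rw [this.1]; simp, by rw [this.2]; simp⟩
    · have h1 : 1 ≤ i := Nat.one_le_iff_ne_zero.2 h0
      exact ⟨⟨fun h => absurd h (hE i a b h1 hi), fun h => absurd h.1 h0⟩,
        ⟨fun h => absurd h (hE i b a h1 hi), fun h => absurd h.1 h0⟩⟩

end Pool.Agent.H65.MC
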