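import Pool.Agent.H96.MC.Targets3

/-!
# Module NUMA (board mc_modules of helper96, MP_5da387_pr)
-/

namespace Pool.Agent.H65.MC

open Filter Pool.Agent.H96.MC

lemma exp_sqrt_le (j : ℕ) (hj : 1 ≤ j) : Real.exp (Real.sqrt j) ≤ (3 : ℝ) ^ j := by
  have h1 : Real.sqrt (j : ℝ) ≤ j := by
    rw [Real.sqrt_le_left (by positivity)]
    have : (1 : ℝ) ≤ j := by exact_mod_cast hj
    nlinarith
  calc Real.exp (Real.sqrt j) ≤ Real.exp (j : ℝ) := Real.exp_le_exp.mpr h1
    _ = Real.exp 1 ^ j := by rw [← Real.exp_nat_mul, mul_one]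
    _ ≤ 3 ^ j := pow_le_pow_left₀ (Real.exp_pos _).le Real.exp_one_lt_three.le _

lemma one_le_exp_sqrt (j : ℕ) : 1 ≤ Real.exp (Real.sqrt j) :=
  Real.one_le_exp (Real.sqrt_nonneg _)

/-- the ratio of the block sides -/
noncomputable def gg (m j : ℕ) : ℕ := ⌈(m : ℝ) * Real.exp (Real.sqrt j)⌉₊

lemma lS_of_pos (l0 m j : ℕ) (hj : 1 ≤ j) : lS l0 m j = l0 * gg m j := by
  unfold lS gg
  rw [if_neg (by omega)]

lemma le_gg (m j : ℕ) : (m : ℝ) * Real.exp (Real.sqrt j) ≤ (gg m j : ℝ) := Nat.le_ceil _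

lemma m_le_gg (m j : ℕ) : m ≤ gg m j := by
  have h1 := le_gg m j
  have h2 := one_le_exp_sqrt j
  have h3 : (m : ℝ) ≤ (gg m j : ℝ) := by
    have : (0 : ℝ) ≤ m := Nat.cast_nonneg m
    nlinarith
  exact_mod_cast h3

lemma gg_le (m j : ℕ) (hm : 1 ≤ m) (hj : 1 ≤ j) : gg m j ≤ (3 * m + 1) ^ j := by
  have h1 : (gg m j : ℝ) < (m : ℝ) * Real.exp (Real.sqrt j) + 1 :=
    Nat.ceil_lt_add_one (by positivity)
  have h2 := exp_sqrt_le j hj
  have hm0 : (0 : ℝ) ≤ m := Nat.cast_nonneg m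
  have h3 : (gg m j : ℝ) < (m * 3 ^ j + 1 : ℕ) := by
    push_cast
    have := mul_le_mul_of_nonneg_left h2 hm0
    linarith
  have h4 : gg m j < m * 3 ^ j + 1 := by exact_mod_cast h3
  have h5 : m * 3 ^ j ≤ (3 * m) ^ j := by
    rw [mul_pow, mul_comm]
    exact Nat.mul_le_mul_left _ (Nat.le_self_pow (by omega) m)
  have h6 : (3 * m) ^ j ≤ (3 * m + 1) ^ j := Nat.pow_le_pow_left (Nat.le_succ _) j
  omega

theorem numa : T_NUMA := by
  intro d ϖ K lst hd hϖ hϖ2
  unfold Largely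
  refine Eventually.of_forall (fun Ns => ?_)
  obtain ⟨m₀, hm₀⟩ := exists_nat_ge (128 / ϖ)
  filter_upwards [eventually_ge_atTop (8 * d + 8 + m₀)] with m hm
  filter_upwards [eventually_ge_atTop (64 + (K Ns + 2) * (3 * m + 1))] with C hC
  filter_upwards [eventually_ge_atTop (1 + lst Ns)] with l0 hl0
  -- thresholds
  have hτ1 : ∀ N : ℕ, ∃ t : ℕ, ∀ j, t ≤ j → (lst N : ℝ) ≤ Real.exp (Real.sqrt j) := by
    intro N
    have h : Tendsto (fun j : ℕ => Real.exp (Real.sqrt (j : ℝ))) atTop atTop :=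
      Real.tendsto_exp_atTop.comp (Real.tendsto_sqrt_atTop.comp tendsto_natCast_atTop_atTop)
    exact eventually_atTop.mp (h.eventually_ge_atTop (lst N : ℝ))
  choose t ht using hτ1
  refine ⟨fun N => t N + (K N + 2), fun Nf hNf => ?_⟩
  obtain ⟨_, _, _, _, hslow⟩ := hNf
  have hm1 : 1 ≤ m := by omega
  have hmR : (1 : ℝ) ≤ m := by exact_mod_cast hm1
  have hl1 : 1 ≤ l0 := by omega
  have hC64 : 64 ≤ C := by omega
  have hC3 : 2 * (3 * m + 1) ≤ C := by nlinarith
  have hCK : (K Ns + 2) * (3 * m + 1) ≤ C := by omega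
  have hgC : ∀ j, 1 ≤ j → gg m j ≤ C ^ j := fun j hj =>
    (gg_le m j hm1 hj).trans (Nat.pow_le_pow_left (by omega) j)
  refine ⟨?_, ?_, ?_, ?_, ?_⟩
  · intro j
    rcases Nat.eq_zero_or_pos j with hj | hj
    · subst hj
      unfold lS
      rw [if_pos rfl]; exact hl1
    · rw [lS_of_pos l0 m j hj]
      exact Nat.one_le_iff_ne_zero.mpr
        (Nat.mul_ne_zero (by omega) (by have := m_le_gg m j; omega))
  · intro j
    rcases Nat.eq_zero_or_pos j with hj | hj
    · subst hj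
      unfold lS
      rw [if_pos rfl]
    · rw [lS_of_pos l0 m j hj]
      exact Dvd.intro _ rfl
  · intro j
    unfold AS
    rcases Nat.eq_zero_or_pos j with hj | hj
    · subst hj
      unfold lS
      rw [if_pos rfl, pow_zero, mul_one]
    · rw [lS_of_pos l0 m j hj, mul_assoc]
      exact Nat.mul_le_mul_left 16 (Nat.mul_le_mul_left l0 (hgC j hj))
  · intro j
    unfold AS
    rw [pow_succ]
    calc 64 * (16 * l0 * C ^ j) = (16 * l0 * C ^ j) * 64 := by ring
      _ ≤ (16 * l0 * C ^ j) * C := Nat.mul_le_mul_left _ hC64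
      _ = 16 * l0 * (C ^ j * C) := by ring
  · intro j hj
    have hlS := lS_of_pos l0 m j hj
    have hmg := m_le_gg m j
    have hleg := le_gg m j
    have hexp1 := one_le_exp_sqrt j
    -- k0 < j
    have hPj : ¬ (128 * (C : ℝ) ^ j ≤ ϖ * (m : ℝ) * Real.exp (Real.sqrt j)) := by
      have h1 : (gg m j : ℝ) ≤ (C : ℝ) ^ j := by exact_mod_cast hgC j hj
      have h2 : (0 : ℝ) < (C : ℝ) ^ j := by
        have : (0 : ℝ) < C := by exact_mod_cast (by omega : 0 < C)
        positivity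
      have h3 : ϖ * (m : ℝ) * Real.exp (Real.sqrt j) ≤ 1 / 2 * (C : ℝ) ^ j := by
        rw [mul_assoc]
        exact mul_le_mul hϖ2 (hleg.trans h1) (by positivity) (by norm_num)
      intro hcon
      linarith
    have hk0 : k0S ϖ m C j < j := by
      unfold k0S
      refine lt_of_le_of_ne (Nat.findGreatest_le j) ?_
      intro heq
      have h1 := Nat.findGreatest_of_ne_zero heq (by omega)
      exact hPj h1
    -- the predicate holds at 0 and so at k0
    have hP0 : 128 * (C : ℝ) ^ 0 ≤ ϖ * (m : ℝ) * Real.exp (Real.sqrt j) := by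
      rw [pow_zero, mul_one]
      have h1 : (m₀ : ℝ) ≤ m := by exact_mod_cast (by omega : m₀ ≤ m)
      have h2 : 128 / ϖ ≤ (m : ℝ) := hm₀.trans h1
      rw [div_le_iff₀ hϖ] at h2
      calc (128 : ℝ) ≤ ϖ * m := by linarith
        _ ≤ ϖ * m * Real.exp (Real.sqrt j) := le_mul_of_one_le_right (by positivity) hexp1
    have hPk : 128 * (C : ℝ) ^ (k0S ϖ m C j) ≤ ϖ * (m : ℝ) * Real.exp (Real.sqrt j) :=
      Nat.findGreatest_spec (P := fun k => 128 * (C : ℝ) ^ k ≤ ϖ * (m : ℝ) * Real.exp (Real.sqrt j))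
        (Nat.zero_le j) hP0
    have hwSle : (wS ϖ l0 m j : ℝ) ≤ ϖ * (lS l0 m j : ℝ) := by
      unfold wS
      rw [if_neg (by omega)]
      exact Nat.floor_le (by positivity)
    refine ⟨?_, ?_, hk0, ?_, ?_, ?_⟩
    · rcases hslow j with h | h
      · rw [h, hlS]
        have : 1 ≤ gg m j := by omega
        calc lst Ns ≤ l0 := by omega
          _ = l0 * 1 := (mul_one _).symm
          _ ≤ l0 * gg m j := Nat.mul_le_mul_left _ this
      · have h1 := ht (Nf j) j (by simp only at h; omega)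
        have h2 : (lst (Nf j) : ℝ) ≤ (gg m j : ℝ) := by
          refine h1.trans (le_trans ?_ hleg)
          exact le_mul_of_one_le_left (by positivity) hmR
        have h3 : lst (Nf j) ≤ gg m j := by exact_mod_cast h2
        rw [hlS]
        exact h3.trans (Nat.le_mul_of_pos_left _ hl1)
    · rw [hlS]
      calc 8 * d * l0 = l0 * (8 * d) := by ring
        _ ≤ l0 * gg m j := Nat.mul_le_mul_left _ (by omega)
    · -- 4 AS k0 + 4 l0 ≤ wS
      unfold wS
      rw [if_neg (by omega)]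
      apply Nat.le_floor
      unfold AS
      push_cast
      rw [hlS]
      push_cast
      have hCk : (1 : ℝ) ≤ (C : ℝ) ^ (k0S ϖ m C j) := one_le_pow₀ (by exact_mod_cast (by omega : 1 ≤ C))
      have hl0R : (0 : ℝ) ≤ l0 := Nat.cast_nonneg _
      calc 4 * (16 * (l0 : ℝ) * (C : ℝ) ^ (k0S ϖ m C j)) + 4 * (l0 : ℝ)
          = (l0 : ℝ) * (64 * (C : ℝ) ^ (k0S ϖ m C j) + 4) := by ring
        _ ≤ (l0 : ℝ) * (128 * (C : ℝ) ^ (k0S ϖ m C j)) :=
            mul_le_mul_of_nonneg_left (by linarith) hl0R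
        _ ≤ (l0 : ℝ) * (ϖ * (gg m j : ℝ)) := by
            apply mul_le_mul_of_nonneg_left _ hl0R
            refine hPk.trans ?_
            rw [mul_assoc]
            exact mul_le_mul_of_nonneg_left hleg hϖ.le
        _ = ϖ * ((l0 : ℝ) * (gg m j : ℝ)) := by ring
    · have h1 : (wS ϖ l0 m j : ℝ) ≤ (lS l0 m j : ℝ) / 2 := by
        have h0 : (0 : ℝ) ≤ (lS l0 m j : ℝ) := Nat.cast_nonneg _
        nlinarith
      have h2 : 8 * l0 ≤ lS l0 m j := by
        rw [hlS]
        calc 8 * l0 = l0 * 8 := by ring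
          _ ≤ l0 * gg m j := Nat.mul_le_mul_left _ (by omega)
      have h3 : (8 * l0 : ℝ) ≤ (lS l0 m j : ℝ) := by exact_mod_cast h2
      have h4 : ((wS ϖ l0 m j + 4 * l0 : ℕ) : ℝ) ≤ (lS l0 m j : ℝ) := by
        push_cast
        linarith
      exact_mod_cast h4
    · -- 8 (K + 2) lS ≤ AS
      rw [hlS]
      unfold AS
      have hmain : (K (Nf j) + 2) * gg m j ≤ 2 * C ^ j := by
        have h0 := gg_le m j hm1 hj
        rcases hslow j with h | h
        · rw [h]
          calc (K Ns + 2) * gg m j ≤ (K Ns + 2) * (3 * m + 1) ^ j := Nat.mul_le_mul_left _ h0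
            _ ≤ (K Ns + 2) ^ j * (3 * m + 1) ^ j :=
                Nat.mul_le_mul_right _ (Nat.le_self_pow (by omega) _)
            _ = ((K Ns + 2) * (3 * m + 1)) ^ j := (mul_pow _ _ _).symm
            _ ≤ C ^ j := Nat.pow_le_pow_left hCK j
            _ ≤ 2 * C ^ j := by omega
        · have h1 : K (Nf j) + 2 ≤ j := by simp only at h; omega
          have h2 : K (Nf j) + 2 ≤ 2 ^ j := h1.trans (Nat.lt_two_pow_self).le
          calc (K (Nf j) + 2) * gg m j ≤ 2 ^ j * (3 * m + 1) ^ j := Nat.mul_le_mul h2 h0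
            _ = (2 * (3 * m + 1)) ^ j := (mul_pow _ _ _).symm
            _ ≤ C ^ j := Nat.pow_le_pow_left hC3 j
            _ ≤ 2 * C ^ j := by omega
      calc 8 * ((K (Nf j) + 2) * (l0 * gg m j)) = 8 * l0 * ((K (Nf j) + 2) * gg m j) := by ring
        _ ≤ 8 * l0 * (2 * C ^ j) := Nat.mul_le_mul_left _ hmain
        _ = 16 * l0 * C ^ j := by ring

end Pool.Agent.H65.MC
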