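import Pool.Agent.H65.MC.NUMA

/-!
# Module NUMB (board mc_modules of helper96, MP_5da387_pr)
-/

namespace Pool.Agent.H65.MC

open Filter Pool.Agent.H96.MC

lemma exp_quad (k : ℕ) : ((k : ℝ) + 1) ^ 2 ≤ 48 * Real.exp (Real.sqrt k) := by
  have h1 := Real.sum_le_exp_of_nonneg (Real.sqrt_nonneg (k : ℝ)) 5
  have h2 : Real.sqrt (k : ℝ) ^ 4 = (k : ℝ) ^ 2 := by
    calc Real.sqrt (k : ℝ) ^ 4 = (Real.sqrt (k : ℝ) ^ 2) ^ 2 := by ring
      _ = (k : ℝ) ^ 2 := by rw [Real.sq_sqrt (Nat.cast_nonneg k)]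
  have h0 := Real.sqrt_nonneg (k : ℝ)
  have h3 : 1 + (k : ℝ) ^ 2 / 24 ≤ Real.exp (Real.sqrt k) := by
    refine le_trans ?_ h1
    simp only [Finset.sum_range_succ, Finset.sum_range_zero, Nat.factorial]
    push_cast
    rw [h2]
    have h4 : 0 ≤ Real.sqrt (k : ℝ) ^ 2 := by positivity
    have h5 : 0 ≤ Real.sqrt (k : ℝ) ^ 3 := by positivity
    norm_num
    nlinarith
  nlinarith [sq_nonneg ((k : ℝ) - 1)]

/-- lower bound for the exponents -/
lemma thS_ge {d : ℕ} {a cT : ℝ} {l0 m : ℕ} {Nf : ℕ → ℕ} (hd : 1 ≤ d) (ha : 0 < a) (hcT : 0 < cT)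
    (hcT1 : cT ≤ 1) (hm : 1 ≤ m) (hl0 : 1 ≤ l0) (Ns : ℕ) (hNs : d + 1 ≤ Ns)
    (hNs2 : 1 ≤ a * ((Ns : ℝ) - d) ^ d - 4) (hmono : Monotone Nf) (h0 : Nf 0 = Ns) (k : ℕ) :
    cT * (l0 : ℝ) * Real.exp (Real.sqrt k) ≤ thS a cT d l0 m Nf k := by
  have hl0R : (1 : ℝ) ≤ l0 := by exact_mod_cast hl0
  have hmR : (1 : ℝ) ≤ m := by exact_mod_cast hm
  have hexp := one_le_exp_sqrt k
  have hbase : (l0 : ℝ) * Real.exp (Real.sqrt k) ≤ ((l0 : ℝ) * Real.exp (Real.sqrt k)) ^ d := by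
    have h1 : 1 ≤ (l0 : ℝ) * Real.exp (Real.sqrt k) := one_le_mul_of_one_le_of_one_le hl0R hexp
    exact le_self_pow₀ h1 (by omega)
  unfold thS
  split_ifs with hk
  · subst hk
    have h2 : Real.exp (Real.sqrt ((0 : ℕ) : ℝ)) = 1 := by simp
    rw [h2, mul_one]
    apply mul_le_mul_of_nonneg_left _ hcT.le
    exact le_self_pow₀ hl0R (by omega)
  · have hk1 : 1 ≤ k := by omega
    have hN : Ns ≤ Nf k := by rw [← h0]; exact hmono (Nat.zero_le k)
    have hNR : (Ns : ℝ) ≤ (Nf k : ℝ) := by exact_mod_cast hN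
    have hdN : (0 : ℝ) ≤ (Ns : ℝ) - d := by
      have : (d : ℝ) + 1 ≤ Ns := by exact_mod_cast hNs
      linarith
    have hfac : 1 ≤ a * ((Nf k : ℝ) - d) ^ d - 4 := by
      have h1 : ((Ns : ℝ) - d) ^ d ≤ ((Nf k : ℝ) - d) ^ d :=
        pow_le_pow_left₀ hdN (by linarith) d
      have := mul_le_mul_of_nonneg_left h1 ha.le
      linarith
    have hlS : (l0 : ℝ) * Real.exp (Real.sqrt k) ≤ (lS l0 m k : ℝ) := by
      rw [lS_of_pos l0 m k hk1]
      push_cast
      apply mul_le_mul_of_nonneg_left _ (by linarith)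
      refine le_trans ?_ (le_gg m k)
      exact le_mul_of_one_le_left (by positivity) hmR
    calc cT * (l0 : ℝ) * Real.exp (Real.sqrt k) ≤ 1 * ((l0 : ℝ) * Real.exp (Real.sqrt k)) := by
          rw [mul_assoc]
          exact mul_le_mul_of_nonneg_right hcT1 (by positivity)
      _ ≤ (a * ((Nf k : ℝ) - d) ^ d - 4) * ((l0 : ℝ) * Real.exp (Real.sqrt k)) ^ d := by
          apply mul_le_mul hfac hbase (by positivity) (by linarith)
      _ ≤ (a * ((Nf k : ℝ) - d) ^ d - 4) * (lS l0 m k : ℝ) ^ d := by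
          apply mul_le_mul_of_nonneg_left _ (by linarith)
          exact pow_le_pow_left₀ (by positivity) hlS d

/-- `j` is bounded by a constant times the square of the first relevant lower level plus one -/
lemma j_le_k0 {ϖ : ℝ} {m C j : ℕ} (hϖ : 0 < ϖ) (hm : 1 ≤ m) (hC : 3 ≤ C)
    (hk0 : k0S ϖ m C j < j) :
    (j : ℝ) ≤ (|Real.log (128 / (ϖ * m))| + Real.log C) ^ 2 * ((k0S ϖ m C j : ℝ) + 1) ^ 2 := by
  set k0 := k0S ϖ m C j with hk
  have hmR : (0 : ℝ) < m := by exact_mod_cast (by omega : 0 < m)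
  have hCR : (1 : ℝ) < C := by exact_mod_cast (by omega : 1 < C)
  have hnot : ¬ (128 * (C : ℝ) ^ (k0 + 1) ≤ ϖ * (m : ℝ) * Real.exp (Real.sqrt j)) :=
    Nat.findGreatest_is_greatest
      (P := fun k => 128 * (C : ℝ) ^ k ≤ ϖ * (m : ℝ) * Real.exp (Real.sqrt j))
      (Nat.lt_succ_self _) hk0
  push Not at hnot
  have hϖm : 0 < ϖ * (m : ℝ) := by positivity
  have h1 : Real.exp (Real.sqrt j) < 128 / (ϖ * m) * (C : ℝ) ^ (k0 + 1) := by
    rw [div_mul_eq_mul_div, lt_div_iff₀ hϖm]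
    linarith
  have hpos : 0 < 128 / (ϖ * (m : ℝ)) := by positivity
  have h2 : Real.sqrt j < Real.log (128 / (ϖ * m)) + ((k0 : ℝ) + 1) * Real.log C := by
    have h3 := Real.log_lt_log (Real.exp_pos _) h1
    rw [Real.log_exp, Real.log_mul hpos.ne' (by positivity), Real.log_pow] at h3
    push_cast at h3
    exact h3
  have hlogC : 0 < Real.log C := Real.log_pos hCR
  have h4 : Real.sqrt j ≤ (|Real.log (128 / (ϖ * m))| + Real.log C) * ((k0 : ℝ) + 1) := by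
    have h5 := le_abs_self (Real.log (128 / (ϖ * m)))
    have h6 : (0 : ℝ) ≤ k0 := Nat.cast_nonneg _
    have h7 := abs_nonneg (Real.log (128 / (ϖ * m)))
    nlinarith [mul_nonneg h7 h6]
  calc (j : ℝ) = Real.sqrt j ^ 2 := (Real.sq_sqrt (Nat.cast_nonneg j)).symm
    _ ≤ ((|Real.log (128 / (ϖ * m))| + Real.log C) * ((k0 : ℝ) + 1)) ^ 2 :=
        pow_le_pow_left₀ (Real.sqrt_nonneg _) h4 2
    _ = _ := by rw [mul_pow]

theorem numb : T_NUMB := by
  intro d a cT ϖ hd ha hcT hcT1 hϖ hϖ2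
  unfold Largely
  -- Ns
  have hNs : ∀ᶠ Ns : ℕ in atTop, 1 ≤ a * ((Ns : ℝ) - d) ^ d - 4 := by
    have h1 : Tendsto (fun N : ℕ => (N : ℝ) - d) atTop atTop :=
      tendsto_atTop_add_const_right atTop (-(d : ℝ)) tendsto_natCast_atTop_atTop
    have h2 : Tendsto (fun N : ℕ => ((N : ℝ) - d) ^ d) atTop atTop :=
      (tendsto_pow_atTop (by omega : d ≠ 0)).comp h1
    have h3 : Tendsto (fun N : ℕ => a * ((N : ℝ) - d) ^ d) atTop atTop :=
      h2.const_mul_atTop ha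
    filter_upwards [h3.eventually_ge_atTop 5] with N hN
    linarith
  filter_upwards [hNs, eventually_ge_atTop (d + 1)] with Ns hNs1 hNs2
  filter_upwards [eventually_ge_atTop (8 * d + 8 + 1)] with m hm
  filter_upwards [eventually_ge_atTop (3 * m + 1)] with C hC
  set C1 : ℝ := |Real.log (128 / (ϖ * m))| + Real.log C with hC1
  have hC3 : 3 ≤ C := by omega
  have hCR : (1 : ℝ) < C := by exact_mod_cast (by omega : 1 < C)
  have hlogC : 0 < Real.log C := Real.log_pos hCR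
  -- l0
  have hlin : ∀ᶠ l0 : ℕ in atTop, (d : ℝ) * C1 ^ 2 * Real.log C ≤ cT * (l0 : ℝ) / 192 := by
    have h1 : Tendsto (fun l0 : ℕ => cT / 192 * (l0 : ℝ)) atTop atTop :=
      tendsto_natCast_atTop_atTop.const_mul_atTop (by positivity)
    filter_upwards [h1.eventually_ge_atTop ((d : ℝ) * C1 ^ 2 * Real.log C)] with l0 h
    calc _ ≤ cT / 192 * (l0 : ℝ) := h
      _ = _ := by ring
  have hlog : ∀ᶠ l0 : ℕ in atTop, (d : ℝ) * Real.log (65 * l0) ≤ cT * (l0 : ℝ) / 192 := by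
    have h1 : Tendsto (fun l0 : ℕ => 65 * (l0 : ℝ)) atTop atTop :=
      tendsto_natCast_atTop_atTop.const_mul_atTop (by norm_num)
    have h2 := Real.isLittleO_log_id_atTop.comp_tendsto h1
    have hc : 0 < cT / (192 * 65 * d) := by
      have : (0 : ℝ) < d := by exact_mod_cast (by omega : 0 < d)
      positivity
    have h3 := h2.bound hc
    filter_upwards [h3, eventually_ge_atTop 1] with l0 h h1'
    simp only [Function.comp, id, Real.norm_eq_abs] at h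
    have hd0 : (0 : ℝ) < d := by exact_mod_cast (by omega : 0 < d)
    have hl : (0 : ℝ) ≤ l0 := Nat.cast_nonneg _
    rw [abs_of_nonneg (by positivity : (0 : ℝ) ≤ 65 * (l0 : ℝ))] at h
    have h4 := (le_abs_self _).trans h
    calc (d : ℝ) * Real.log (65 * l0) ≤ d * (cT / (192 * 65 * d) * (65 * (l0 : ℝ))) :=
          mul_le_mul_of_nonneg_left h4 hd0.le
      _ = cT * (l0 : ℝ) / 192 := by field_simp
  filter_upwards [hlin, hlog, eventually_ge_atTop 1] with l0 hl1 hl2 hl3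
  refine ⟨fun _ => 0, fun Nf hNf => ?_⟩
  obtain ⟨hmono, h0, _, _, _⟩ := hNf
  intro j hj k hk0 hkj
  have hth := thS_ge (a := a) (cT := cT) (l0 := l0) (m := m) (Nf := Nf) hd ha hcT hcT1
    (by omega) hl3 Ns hNs2 hNs1 hmono h0 k
  have hl0R : (1 : ℝ) ≤ l0 := by exact_mod_cast hl3
  have hquad := exp_quad k
  have hexp0 := Real.exp_pos (Real.sqrt k)
  have hthpos : 0 < thS a cT d l0 m Nf k := lt_of_lt_of_le (by positivity) hth
  refine ⟨hthpos, ?_⟩
  have hjk := j_le_k0 (ϖ := ϖ) (m := m) (C := C) (j := j) hϖ (by omega) hC3 (lt_of_le_of_lt hk0 hkj)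
  rw [← hC1] at hjk
  have hjk2 : (j : ℝ) ≤ C1 ^ 2 * ((k : ℝ) + 1) ^ 2 := by
    refine hjk.trans ?_
    apply mul_le_mul_of_nonneg_left _ (sq_nonneg _)
    have h1 : ((k0S ϖ m C j : ℕ) : ℝ) ≤ (k : ℝ) := by exact_mod_cast hk0
    exact pow_le_pow_left₀ (by positivity) (by linarith) 2
  have hCj : (1 : ℝ) ≤ (C : ℝ) ^ j := one_le_pow₀ hCR.le
  have hA : 4 * (AS l0 C j : ℝ) + 1 ≤ 65 * (l0 : ℝ) * (C : ℝ) ^ j := by
    unfold AS
    push_cast
    have : 1 ≤ (l0 : ℝ) * (C : ℝ) ^ j := one_le_mul_of_one_le_of_one_le hl0R hCj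
    nlinarith
  have h65 : (0 : ℝ) < 65 * (l0 : ℝ) := by linarith
  have hCj0 : (0 : ℝ) < (C : ℝ) ^ j := by linarith
  calc (4 * (AS l0 C j : ℝ) + 1) ^ d ≤ (65 * (l0 : ℝ) * (C : ℝ) ^ j) ^ d :=
        pow_le_pow_left₀ (by positivity) hA d
    _ = Real.exp ((d : ℝ) * (Real.log (65 * l0) + j * Real.log C)) := by
        rw [Real.exp_nat_mul, Real.exp_add, Real.exp_log h65, Real.exp_nat_mul,
          Real.exp_log (by linarith)]
    _ ≤ Real.exp (thS a cT d l0 m Nf k / 2) := by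
        apply Real.exp_le_exp.mpr
        have hd0 : (0 : ℝ) ≤ d := Nat.cast_nonneg _
        have hk1 : (1 : ℝ) ≤ ((k : ℝ) + 1) ^ 2 := by
          have : (0 : ℝ) ≤ k := Nat.cast_nonneg _
          nlinarith
        have s1 : (d : ℝ) * (j * Real.log C) ≤ cT * (l0 : ℝ) / 192 * ((k : ℝ) + 1) ^ 2 := by
          calc (d : ℝ) * (j * Real.log C)
              ≤ d * ((C1 ^ 2 * ((k : ℝ) + 1) ^ 2) * Real.log C) := by
                apply mul_le_mul_of_nonneg_left _ hd0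
                exact mul_le_mul_of_nonneg_right hjk2 hlogC.le
            _ = (d * C1 ^ 2 * Real.log C) * ((k : ℝ) + 1) ^ 2 := by ring
            _ ≤ cT * (l0 : ℝ) / 192 * ((k : ℝ) + 1) ^ 2 :=
                mul_le_mul_of_nonneg_right hl1 (by positivity)
        have s2 : (d : ℝ) * Real.log (65 * l0) ≤ cT * (l0 : ℝ) / 192 * ((k : ℝ) + 1) ^ 2 := by
          refine hl2.trans ?_
          exact le_mul_of_one_le_right (by positivity) hk1
        have s3 : cT * (l0 : ℝ) * ((k : ℝ) + 1) ^ 2 ≤ 48 * thS a cT d l0 m Nf k := by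
          calc cT * (l0 : ℝ) * ((k : ℝ) + 1) ^ 2
              ≤ cT * (l0 : ℝ) * (48 * Real.exp (Real.sqrt k)) :=
                mul_le_mul_of_nonneg_left hquad (by positivity)
            _ = 48 * (cT * (l0 : ℝ) * Real.exp (Real.sqrt k)) := by ring
            _ ≤ 48 * thS a cT d l0 m Nf k := by linarith
        rw [mul_add]
        linarith

end Pool.Agent.H65.MC
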