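import Pool.Agent.H89.MC.Targets
import Pool.Agent.H96.MC.Targets

/-!
# Module PPP (board mc_modules, MP_5da387_pr)
-/

namespace Pool.Agent.H65.MC

open MeasureTheory ProbabilityTheory Pool.Agent.H96.MC

/-- the cells are disjoint -/
lemma cell_disj {d : ℕ} (ζ : Fin d → ℝ) (v v' : Cell d) (h : v ≠ v') :
    Disjoint {y : Sp d | ∀ l, (v l : ℝ) + ζ l ≤ y l ∧ y l < (v l : ℝ) + ζ l + 1}
      {y : Sp d | ∀ l, (v' l : ℝ) + ζ l ≤ y l ∧ y l < (v' l : ℝ) + ζ l + 1} := by
  rw [Set.disjoint_left]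
  intro y hy hy'
  apply h
  funext l
  have h1 := hy l
  have h2 := hy' l
  have h3 : (v l : ℝ) < (v' l : ℝ) + 1 := by linarith [h1.1, h2.2]
  have h4 : (v' l : ℝ) < (v l : ℝ) + 1 := by linarith [h2.1, h1.2]
  have h5 : v l < v' l + 1 := by exact_mod_cast h3
  have h6 : v' l < v l + 1 := by exact_mod_cast h4
  omega

lemma cell_meas {d : ℕ} (w : Fin d → ℝ) :
    MeasurableSet {y : Sp d | ∀ l, w l ≤ y l ∧ y l < w l + 1} := by
  have : {y : Sp d | ∀ l, w l ≤ y l ∧ y l < w l + 1}
      = ⋂ l, {y : Sp d | w l ≤ y l} ∩ {y : Sp d | y l < w l + 1} := by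
    ext y
    simp
  rw [this]
  refine MeasurableSet.iInter (fun l => ?_)
  have hl : Measurable fun y : Sp d => y l := by fun_prop
  exact (measurableSet_le measurable_const hl).inter (measurableSet_lt hl measurable_const)

theorem ppp (hPLC : T_PLC) (hPSUM : T_PSUM) (hUNI : T_UNI) : T_PPP := by
  classical
  intro d q D ζ W m c B hB hdisj hcov
  have hplc := hPLC d q D ζ W m c B hB hdisj
  set law := (pois D d).prod (Measure.infinitePi fun _ : Pt d q => unif d) with hlaw
  set F : Cfg d q × (Pt d q → Fin d → ℝ) → (W × Fin m → ℕ) :=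
    fun w p => ctW ζ (c p.2) (B p.2) {p.1.1} w with hF
  set S : (W × Fin m → ℕ) → (Fin m → ℕ) := fun x j => ∑ p, if p.2 = j then x p else 0 with hS
  have hFS : (fun w j => ctW ζ (c j) (B j) W w) = S ∘ F := by
    funext w j
    simp only [Function.comp, hS, hF]
    rw [Fintype.sum_prod_type]
    have h1 : ∀ v : W, ∑ j' : Fin m, (if j' = j then ctW ζ (c j') (B j') {v.1} w else 0)
        = ctW ζ (c j) (B j) {v.1} w := by
      intro v
      rw [Finset.sum_ite_eq']
      simp
    have h2 : ∑ v : W, ctW ζ (c j) (B j) {v.1} w = ctW ζ (c j) (B j) W w := by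
      unfold ctW
      simp only [Finset.sum_singleton]
      exact Finset.sum_coe_sort W (fun v => ((Finset.range (w.1 (v, c j))).filter fun k =>
        (WithLp.toLp 2 fun l => ((v l : ℝ) + w.2 ((v, c j), k) l + ζ l) : Sp d) ∈ B j).card)
    calc ctW ζ (c j) (B j) W w = ∑ v : W, ctW ζ (c j) (B j) {v.1} w := h2.symm
      _ = _ := Finset.sum_congr rfl (fun v _ => (h1 v).symm)
  have hSm : Measurable S := by
    rw [hS]
    refine measurable_pi_lambda _ (fun j => ?_)
    refine Finset.measurable_sum _ (fun p _ => ?_)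
    split_ifs
    · exact measurable_pi_apply p
    · exact measurable_const
  have hFm : AEMeasurable F law := by
    by_contra hcon
    have h0 := Measure.map_of_not_aemeasurable hcon
    have h1 : Measure.map F law = Measure.pi fun p : W × Fin m =>
      poissonMeasure ((D.lam (c p.2)).toNNReal *
        (unif d {u | (WithLp.toLp 2 fun l => ((p.1.1 l : ℝ) + u l + ζ l) : Sp d) ∈ B p.2}).toNNReal) :=
      hplc
    rw [h0] at h1
    have h2 : (Measure.pi fun p : W × Fin m =>
      poissonMeasure ((D.lam (c p.2)).toNNReal *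
        (unif d {u | (WithLp.toLp 2 fun l => ((p.1.1 l : ℝ) + u l + ζ l) : Sp d) ∈
          B p.2}).toNNReal)) Set.univ = 1 := measure_univ
    rw [← h1] at h2
    simp at h2
  rw [hFS, ← AEMeasurable.map_map_of_aemeasurable hSm.aemeasurable hFm]
  have h1 : Measure.map F law = Measure.pi fun p : W × Fin m =>
      poissonMeasure ((D.lam (c p.2)).toNNReal *
        (unif d {u | (WithLp.toLp 2 fun l => ((p.1.1 l : ℝ) + u l + ζ l) : Sp d) ∈ B p.2}).toNNReal) :=
      hplc
  rw [h1]
  have h2 := hPSUM (W × Fin m) (Fin m) inferInstance inferInstance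
    (fun p => (D.lam (c p.2)).toNNReal *
        (unif d {u | (WithLp.toLp 2 fun l => ((p.1.1 l : ℝ) + u l + ζ l) : Sp d) ∈ B p.2}).toNNReal)
    Prod.snd
  have hS' : S = fun w k' => ∑ k, if k.2 = k' then w k else 0 := rfl
  have h3 : Measure.map S (Measure.pi fun p : W × Fin m =>
      poissonMeasure ((D.lam (c p.2)).toNNReal *
        (unif d {u | (WithLp.toLp 2 fun l => ((p.1.1 l : ℝ) + u l + ζ l) : Sp d) ∈ B p.2}).toNNReal))
      = Measure.pi fun j => poissonMeasure (∑ p : W × Fin m, if p.2 = j then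
        ((D.lam (c p.2)).toNNReal *
        (unif d {u | (WithLp.toLp 2 fun l => ((p.1.1 l : ℝ) + u l + ζ l) : Sp d) ∈ B p.2}).toNNReal)
        else 0) := by
    rw [hS']
    convert h2
  rw [h3]
  congr 1
  funext j
  congr 1
  -- the parameters
  rw [Fintype.sum_prod_type]
  have h4 : ∀ v : W, ∑ j' : Fin m, (if j' = j then (D.lam (c j')).toNNReal *
        (unif d {u | (WithLp.toLp 2 fun l => ((v.1 l : ℝ) + u l + ζ l) : Sp d) ∈ B j'}).toNNReal
        else 0)
      = (D.lam (c j)).toNNReal *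
        (volume (B j ∩ {y : Sp d | ∀ l, (v.1 l : ℝ) + ζ l ≤ y l ∧
          y l < (v.1 l : ℝ) + ζ l + 1})).toNNReal := by
    intro v
    rw [Finset.sum_ite_eq', if_pos (Finset.mem_univ _)]
    congr 2
    have h5 := (hUNI d).2.2.2 (B j) (fun l => (v.1 l : ℝ) + ζ l) (hB j)
    rw [← h5]
    congr 1
    ext u
    simp only [Set.mem_ofPred_eq]
    have : (fun l => ((v.1 l : ℝ) + u l + ζ l)) = fun l => ((v.1 l : ℝ) + ζ l + u l) := by
      funext l
      ring
    rw [this]
  have h5 : ∑ v : W, ∑ j' : Fin m, (if j' = j then (D.lam (c j')).toNNReal *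
        (unif d {u | (WithLp.toLp 2 fun l => ((v.1 l : ℝ) + u l + ζ l) : Sp d) ∈ B j'}).toNNReal
        else 0)
      = (D.lam (c j)).toNNReal * (volume (B j)).toNNReal := by
    rw [Finset.sum_congr rfl (fun v _ => h4 v), ← Finset.mul_sum]
    congr 1
    have hfin : ∀ v : W, volume (B j ∩ {y : Sp d | ∀ l, (v.1 l : ℝ) + ζ l ≤ y l ∧
          y l < (v.1 l : ℝ) + ζ l + 1}) ≠ ⊤ := by
      intro v
      have h5 := (hUNI d).2.2.2 (B j) (fun l => (v.1 l : ℝ) + ζ l) (hB j)
      rw [← h5]
      have := (hUNI d).1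
      exact measure_ne_top _ _
    rw [← ENNReal.toNNReal_sum (fun v _ => hfin v)]
    congr 1
    have h6 : B j = ⋃ v ∈ (Finset.univ : Finset W), (B j ∩ {y : Sp d | ∀ l,
        (v.1 l : ℝ) + ζ l ≤ y l ∧ y l < (v.1 l : ℝ) + ζ l + 1}) := by
      ext y
      simp only [Finset.mem_univ, Set.iUnion_true, Set.mem_iUnion, Set.mem_inter_iff,
        Set.mem_ofPred_eq]
      constructor
      · intro hy
        obtain ⟨v, hv, hv2⟩ := hcov j y hy
        exact ⟨⟨v, hv⟩, hy, hv2⟩
      · rintro ⟨v, hy, _⟩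
        exact hy
    conv_rhs => rw [h6]
    rw [measure_biUnion_finset]
    · intro v _ v' _ hvv
      have : v.1 ≠ v'.1 := fun h => hvv (Subtype.ext h)
      exact ((cell_disj ζ v.1 v'.1 this).mono Set.inter_subset_right Set.inter_subset_right)
    · intro v _
      exact (hB j).inter (cell_meas (fun l => (v.1 l : ℝ) + ζ l))
  exact h5

end Pool.Agent.H65.MC
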