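import Pool.Agent.H96.MC.Targets3

/-!
# Module SLOW (board mc_modules of helper96, MP_5da387_pr)
-/

namespace Pool.Agent.H65.MC

open Filter Pool.Agent.H96.MC

theorem slow : T_SLOW := by
  classical
  intro Ns τ
  let Nf : ℕ → ℕ := fun j =>
    Nat.rec Ns (fun j x => if τ (x + 1) ≤ j + 1 then x + 1 else x) j
  have h0 : Nf 0 = Ns := rfl
  have hs : ∀ j, Nf (j + 1) = if τ (Nf j + 1) ≤ j + 1 then Nf j + 1 else Nf j := fun j => rfl
  have hmono : Monotone Nf := by
    apply monotone_nat_of_le_succ
    intro j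
    rw [hs]
    split_ifs
    · exact Nat.le_succ _
    · exact le_rfl
  have hstep : ∀ j, Nf (j + 1) ≤ Nf j + 1 := by
    intro j
    rw [hs]
    split_ifs
    · exact le_rfl
    · exact Nat.le_succ _
  have hinv : ∀ j, Nf j = Ns ∨ τ (Nf j) ≤ j := by
    intro j
    induction j with
    | zero => exact Or.inl h0
    | succ j ih =>
      rw [hs]
      split_ifs with h
      · exact Or.inr h
      · rcases ih with h1 | h1
        · exact Or.inl h1
        · exact Or.inr (h1.trans (Nat.le_succ _))
  have hunb : ∀ M, ∃ j, M ≤ Nf j := by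
    intro M
    induction M with
    | zero => exact ⟨0, Nat.zero_le _⟩
    | succ M ih =>
      obtain ⟨j, hj⟩ := ih
      set j' := max j (τ (M + 1)) with hj'
      have h1 : M ≤ Nf j' := hj.trans (hmono (le_max_left _ _))
      rcases Nat.lt_or_ge M (Nf j') with h2 | h2
      · exact ⟨j', h2⟩
      · have h3 : Nf j' = M := le_antisymm h2 h1
        refine ⟨j' + 1, ?_⟩
        rw [hs, h3, if_pos ((le_max_right j _).trans (Nat.le_succ _))]
  exact ⟨Nf, hmono, h0, hstep, tendsto_atTop_atTop_of_monotone hmono hunb, hinv⟩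

end Pool.Agent.H65.MC
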