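import Pool.Agent.H79.MC.Targets

/-!
Module SUM: double sums.
-/

set_option autoImplicit false

namespace Pool.Agent.H65.MC

open Pool.Agent.H79.MC

theorem ex_seq {W : ℕ} {p q : Prog} {s : St} {T₁ T₂ : ℕ} {Q₁ Q₂ : St → Prop}
    (h1 : Ex W p s T₁ Q₁) (h2 : ∀ s', Q₁ s' → Ex W q s' T₂ Q₂) :
    Ex W (.seq p q) s (T₁ + T₂) Q₂ := by
  obtain ⟨t, s', hr, ht, hQ⟩ := h1
  obtain ⟨t', s'', hr', ht', hQ'⟩ := h2 s' hQ
  exact ⟨t + t', s'', Run.seq hr hr', by omega, hQ'⟩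

theorem ex_set {W : ℕ} (i : ℕ) (e : Exp) (s : St) (h : mx s e ≤ W) :
    Ex W (.set i e) s 1 fun s' => s' = s.setr i (ev s e) :=
  ⟨1, _, Run.set i e s h, le_rfl, rfl⟩

theorem ex_put {W : ℕ} (k : ℕ) (e f : Exp) (s : St) (h : mx s e ≤ W) (h' : mx s f ≤ W) :
    Ex W (.put k e f) s 1 fun s' => s' = s.seta k (ev s e) (ev s f) :=
  ⟨1, _, Run.put k e f s h h', le_rfl, rfl⟩

theorem ex_mono {W : ℕ} {p : Prog} {s : St} {T₁ T₂ : ℕ} {Q₁ Q₂ : St → Prop}
    (h1 : Ex W p s T₁ Q₁) (hT : T₁ ≤ T₂) (h2 : ∀ s', Q₁ s' → Q₂ s') : Ex W p s T₂ Q₂ := by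
  obtain ⟨t, s', hr, ht, hQ⟩ := h1
  exact ⟨t, s', hr, ht.trans hT, h2 s' hQ⟩

theorem agree_setr {R K : Finset ℕ} {s s' : St} (h : Agree R K s s') {i : ℕ} (hi : i ∈ R) (v : ℕ) :
    Agree R K s (s'.setr i v) := by
  refine ⟨fun j hj => ?_, h.2⟩
  have hne : j ≠ i := fun e => hj (e ▸ hi)
  show Function.update s'.r i v j = s.r j
  rw [Function.update_of_ne hne]
  exact h.1 j hj

theorem agree_refl (R K : Finset ℕ) (s : St) : Agree R K s s := ⟨fun _ _ => rfl, fun _ _ => rfl⟩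

theorem setr_same (s : St) (i v : ℕ) : (s.setr i v).r i = v := by
  simp [St.setr]

theorem setr_ne (s : St) {i j : ℕ} (h : j ≠ i) (v : ℕ) : (s.setr i v).r j = s.r j := by
  simp [St.setr, h]

theorem setr_a (s : St) (i v : ℕ) : (s.setr i v).a = s.a := rfl

theorem pf_sum (hFR : T_FR) (_hMXW : T_MXW) : T_SUM := by
  intro W e s n f h0 hW hf hS
  have hpart : ∀ k < n, ∀ l ≤ n, (∑ i ∈ Finset.range k, ∑ i' ∈ Finset.range n, f i i') +
      ∑ i' ∈ Finset.range l, f k i' ≤ W := by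
    intro k hk l hl
    refine le_trans ?_ hS
    have h1 : ∑ i' ∈ Finset.range l, f k i' ≤ ∑ i' ∈ Finset.range n, f k i' :=
      Finset.sum_le_sum_of_subset (Finset.range_mono hl)
    have h2 : ∑ i ∈ Finset.range (k + 1), ∑ i' ∈ Finset.range n, f i i' ≤
        ∑ i ∈ Finset.range n, ∑ i' ∈ Finset.range n, f i i' :=
      Finset.sum_le_sum_of_subset (Finset.range_mono hk)
    rw [Finset.sum_range_succ] at h2
    omega
  have m8 : (8 : ℕ) ∈ ({8, 9, 10} : Finset ℕ) := by decide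
  have m9 : (9 : ℕ) ∈ ({8, 9, 10} : Finset ℕ) := by decide
  have m10 : (10 : ℕ) ∈ ({8, 9, 10} : Finset ℕ) := by decide
  have n0 : (0 : ℕ) ∉ ({8, 9, 10} : Finset ℕ) := by decide
  obtain ⟨I, hI⟩ : ∃ I : ℕ → St → Prop, I = fun k s' => Agree {8, 9, 10} ∅ s s' ∧ s'.r 8 = k ∧
    s'.r 10 = ∑ i ∈ Finset.range k, ∑ i' ∈ Finset.range n, f i i' := ⟨_, rfl⟩
  have hset : Ex W (.set 10 (.lit 0)) s 1 fun s' => s' = s.setr 10 0 :=
    ex_set 10 (.lit 0) s (Nat.zero_le _)
  have hloop : ∀ s', s' = s.setr 10 0 → Ex W (forP 8 (.reg 0) (forP 9 (.reg 0)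
      (.set 10 (.add (.reg 10) e)))) s' (n * (3 * n + 2 + 2) + 2) fun s'' =>
      Agree {8, 9, 10} ∅ s s'' ∧
        s''.r 10 = ∑ i ∈ Finset.range n, ∑ i' ∈ Finset.range n, f i i' := by
    rintro s' rfl
    have h := hFR W 8 (.reg 0) (forP 9 (.reg 0) (.set 10 (.add (.reg 10) e))) (s.setr 10 0)
      (3 * n + 2) n I ?_ ?_ ?_
    · refine ex_mono h le_rfl fun s' hs' => ?_
      rw [hI] at hs'
      exact ⟨hs'.1, hs'.2.2⟩
    · rw [hI]
      refine ⟨agree_setr (agree_setr (agree_refl _ _ _) m10 _) m8 _, setr_same _ _ _, ?_⟩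
      rw [setr_ne _ (by norm_num), setr_same]
      simp
    · intro k s' hk hs'
      rw [hI] at hs'
      have hr0 : s'.r 0 = n := by rw [hs'.1.1 0 n0, h0]
      refine ⟨hs'.2.1, hr0, ?_⟩
      show s'.r 0 ≤ W
      omega
    · intro k s' hk hs'
      rw [hI] at hs'
      obtain ⟨ha, h8, h10⟩ := hs'
      obtain ⟨J, hJ⟩ : ∃ J : ℕ → St → Prop, J = fun l s'' => Agree {8, 9, 10} ∅ s s'' ∧
        s''.r 8 = k ∧ s''.r 9 = l ∧
        s''.r 10 = (∑ i ∈ Finset.range k, ∑ i' ∈ Finset.range n, f i i') +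
          ∑ i' ∈ Finset.range l, f k i' := ⟨_, rfl⟩
      have h := hFR W 9 (.reg 0) (.set 10 (.add (.reg 10) e)) s' 1 n J ?_ ?_ ?_
      · refine ex_mono h (by ring_nf; omega) fun s'' hs'' => ?_
        rw [hJ] at hs''
        obtain ⟨a1, a2, a3, a4⟩ := hs''
        refine ⟨a2, ?_⟩
        rw [hI]
        refine ⟨agree_setr a1 m8 _, setr_same _ _ _, ?_⟩
        rw [setr_ne _ (by norm_num), a4, Finset.sum_range_succ]
      · rw [hJ]
        refine ⟨agree_setr ha m9 _, ?_, setr_same _ _ _, ?_⟩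
        · rw [setr_ne _ (by norm_num), h8]
        · rw [setr_ne _ (by norm_num), h10]
          simp
      · intro l s'' hl hs''
        rw [hJ] at hs''
        have hr0 : s''.r 0 = n := by rw [hs''.1.1 0 n0, h0]
        refine ⟨hs''.2.2.1, hr0, ?_⟩
        show s''.r 0 ≤ W
        omega
      · intro l s'' hl hs''
        rw [hJ] at hs''
        obtain ⟨a1, a2, a3, a4⟩ := hs''
        obtain ⟨e1, e2⟩ := hf s'' k l a1 hk hl a2 a3
        have hp1 := hpart k hk (l + 1) hl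
        have hp0 := hpart k hk l hl.le
        rw [Finset.sum_range_succ] at hp1
        refine ex_mono (ex_set 10 (.add (.reg 10) e) s'' ?_) le_rfl fun s3 hs3 => ?_
        · show max (max (s''.r 10) (mx s'' e)) (s''.r 10 + ev s'' e) ≤ W
          rw [e1, a4]
          refine max_le (max_le hp0 e2) ?_
          omega
        · subst hs3
          refine ⟨?_, ?_⟩
          · rw [setr_ne _ (by norm_num), a3]
          · rw [hJ]
            refine ⟨agree_setr (agree_setr a1 m10 _) m9 _, ?_, setr_same _ _ _, ?_⟩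
            · rw [setr_ne _ (by norm_num), setr_ne _ (by norm_num), a2]
            · rw [setr_ne _ (by norm_num), setr_same]
              show s''.r 10 + ev s'' e = _
              rw [e1, a4, Finset.sum_range_succ]
              ring
  exact ex_mono (ex_seq hset hloop) (by ring_nf; omega) fun s' hs' => hs'

end Pool.Agent.H65.MC
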