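import Pool.Agent.H96.MC.Stmt

/-!
# The uniform law on the unit cube (module UNI of mc_modules, MP_5da387_pr), definition-free part
-/

namespace Pool.Agent.H65.MC

open MeasureTheory Set

/-- rotation of the unit interval -/
lemma mp_fract (c : ℝ) : MeasurePreserving (fun x : ℝ => Int.fract (x + c))
    ((volume : Measure ℝ).restrict (Ico 0 1)) ((volume : Measure ℝ).restrict (Ico 0 1)) := by
  set c' := Int.fract c with hc'
  have h0 : 0 ≤ c' := Int.fract_nonneg c
  have h1 : c' < 1 := Int.fract_lt_one c
  have hf : (fun x : ℝ => Int.fract (x + c)) = fun x : ℝ => Int.fract (x + c') := by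
    funext x
    rw [hc']
    have : x + c = (x + Int.fract c) + (⌊c⌋ : ℤ) := by
      rw [add_assoc, Int.fract_add_floor]
    rw [this, Int.fract_add_intCast]
  rw [hf]
  have hmeas : Measurable fun x : ℝ => Int.fract (x + c') :=
    measurable_fract.comp (measurable_id.add_const c')
  refine ⟨hmeas, ?_⟩
  ext A hA
  rw [Measure.map_apply hmeas hA, Measure.restrict_apply (hmeas hA), Measure.restrict_apply hA]
  have e1 : (fun x : ℝ => Int.fract (x + c')) ⁻¹' A ∩ Ico 0 1
      = ((fun x : ℝ => x + c') ⁻¹' (A ∩ Ico c' 1))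
        ∪ ((fun x : ℝ => x + (c' - 1)) ⁻¹' (A ∩ Ico 0 c')) := by
    ext x
    simp only [mem_inter_iff, mem_preimage, mem_Ico, mem_union]
    constructor
    · rintro ⟨hA', hx0, hx1⟩
      by_cases hx : x + c' < 1
      · left
        have : Int.fract (x + c') = x + c' := Int.fract_eq_self.mpr ⟨by linarith, hx⟩
        rw [this] at hA'
        exact ⟨hA', by linarith, hx⟩
      · right
        push Not at hx
        have : Int.fract (x + c') = x + (c' - 1) := by
          rw [Int.fract_eq_iff]
          refine ⟨by linarith, by linarith, 1, by push_cast; ring⟩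
        rw [this] at hA'
        exact ⟨hA', by linarith, by linarith⟩
    · rintro (⟨hA', hx0, hx1⟩ | ⟨hA', hx0, hx1⟩)
      · have : Int.fract (x + c') = x + c' := Int.fract_eq_self.mpr ⟨by linarith, hx1⟩
        rw [this]
        exact ⟨hA', by linarith, by linarith⟩
      · have : Int.fract (x + c') = x + (c' - 1) := by
          rw [Int.fract_eq_iff]
          refine ⟨by linarith, by linarith, 1, by push_cast; ring⟩
        rw [this]
        exact ⟨hA', by linarith, by linarith⟩
  have hdisj : Disjoint ((fun x : ℝ => x + c') ⁻¹' (A ∩ Ico c' 1))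
      ((fun x : ℝ => x + (c' - 1)) ⁻¹' (A ∩ Ico 0 c')) := by
    rw [Set.disjoint_left]
    intro x hx hx'
    simp only [mem_inter_iff, mem_preimage, mem_Ico] at hx hx'
    linarith [hx.2.1, hx.2.2, hx'.2.1, hx'.2.2]
  have hm2 : MeasurableSet ((fun x : ℝ => x + (c' - 1)) ⁻¹' (A ∩ Ico 0 c')) :=
    (measurable_id.add_const _) (hA.inter measurableSet_Ico)
  rw [e1, measure_union hdisj hm2, measure_preimage_add_right, measure_preimage_add_right]
  have e2 : A ∩ Ico (0 : ℝ) 1 = (A ∩ Ico c' 1) ∪ (A ∩ Ico 0 c') := by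
    ext x
    simp only [mem_inter_iff, mem_Ico, mem_union]
    constructor
    · rintro ⟨hA', hx0, hx1⟩
      by_cases hx : x < c'
      · exact Or.inr ⟨hA', hx0, hx⟩
      · push Not at hx
        exact Or.inl ⟨hA', hx, hx1⟩
    · rintro (⟨hA', hx0, hx1⟩ | ⟨hA', hx0, hx1⟩)
      · exact ⟨hA', by linarith, hx1⟩
      · exact ⟨hA', hx0, by linarith⟩
  rw [e2, measure_union _ (hA.inter measurableSet_Ico)]
  rw [Set.disjoint_left]
  intro x hx hx'
  simp only [mem_inter_iff, mem_Ico] at hx hx'
  linarith [hx.2.1, hx'.2.2]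

variable {d : ℕ}

lemma unif_eq : (volume : Measure (Fin d → ℝ)).restrict (Set.pi Set.univ fun _ => Set.Ico 0 1)
    = Measure.pi (fun _ : Fin d => (volume : Measure ℝ).restrict (Ico 0 1)) := by
  rw [volume_pi, Measure.restrict_pi_pi]

instance prob_unit : IsProbabilityMeasure ((volume : Measure ℝ).restrict (Ico 0 1)) := by
  refine ⟨?_⟩
  rw [Measure.restrict_apply_univ, Real.volume_Ico]
  simp

lemma unif_prob : IsProbabilityMeasure
    ((volume : Measure (Fin d → ℝ)).restrict (Set.pi Set.univ fun _ => Set.Ico 0 1)) := by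
  rw [unif_eq]
  infer_instance

lemma unif_atom (hd : 1 ≤ d) (u : Fin d → ℝ) :
    (volume : Measure (Fin d → ℝ)).restrict (Set.pi Set.univ fun _ => Set.Ico 0 1) {u} = 0 := by
  have : Nonempty (Fin d) := ⟨⟨0, hd⟩⟩
  have h1 : (volume : Measure (Fin d → ℝ)) {u} = 0 := measure_singleton u
  exact le_antisymm ((Measure.restrict_apply_le _ _).trans h1.le) bot_le

lemma unif_rot (v : Fin d → ℝ) :
    MeasurePreserving (fun (ζ : Fin d → ℝ) l => Int.fract (ζ l + v l))
      ((volume : Measure (Fin d → ℝ)).restrict (Set.pi Set.univ fun _ => Set.Ico 0 1))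
      ((volume : Measure (Fin d → ℝ)).restrict (Set.pi Set.univ fun _ => Set.Ico 0 1)) := by
  rw [unif_eq]
  exact measurePreserving_pi _ _ (fun l => mp_fract (v l))

open Pool.Agent.H96.MC in
lemma unif_place (B : Set (Sp d)) (w : Fin d → ℝ) (hB : MeasurableSet B) :
    (volume : Measure (Fin d → ℝ)).restrict (Set.pi Set.univ fun _ => Set.Ico 0 1)
      {u | (WithLp.toLp 2 (fun l => w l + u l) : Sp d) ∈ B} =
      volume (B ∩ {y : Sp d | ∀ l, w l ≤ y l ∧ y l < w l + 1}) := by
  have hmp : MeasurePreserving (fun u : Fin d → ℝ => (WithLp.toLp 2 (fun l => w l + u l) : Sp d))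
      volume volume := by
    have h1 : MeasurePreserving (fun u : Fin d → ℝ => w + u) volume volume :=
      measurePreserving_add_left volume w
    have h2 := (PiLp.volume_preserving_toLp (Fin d)).comp h1
    exact h2
  have hC : MeasurableSet {y : Sp d | ∀ l, w l ≤ y l ∧ y l < w l + 1} := by
    have : {y : Sp d | ∀ l, w l ≤ y l ∧ y l < w l + 1}
        = ⋂ l, {y : Sp d | w l ≤ y l} ∩ {y : Sp d | y l < w l + 1} := by
      ext y
      simp
    rw [this]
    refine MeasurableSet.iInter (fun l => ?_)
    have hl : Measurable fun y : Sp d => y l := by fun_prop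
    exact (measurableSet_le measurable_const hl).inter (measurableSet_lt hl measurable_const)
  have h3 := hmp.measure_preimage (hB.inter hC).nullMeasurableSet
  have hS : MeasurableSet {u : Fin d → ℝ | (WithLp.toLp 2 (fun l => w l + u l) : Sp d) ∈ B} :=
    hmp.measurable hB
  rw [← h3, Measure.restrict_apply hS]
  congr 1
  ext u
  simp only [mem_inter_iff, mem_ofPred_eq, mem_preimage, Set.mem_pi, mem_univ, true_implies, mem_Ico]
  constructor
  · rintro ⟨ha, hb⟩
    refine ⟨ha, fun l => ?_⟩
    have := hb l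
    constructor <;> linarith [this.1, this.2]
  · rintro ⟨ha, hb⟩
    refine ⟨ha, fun l => ?_⟩
    have := hb l
    constructor <;> linarith [this.1, this.2]

end Pool.Agent.H65.MC
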