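import Pool.Agent.H89.MC.Targets
import Pool.Agent.H65.MC.UNI0

/-!
# Module UNI (board mc_modules, MP_5da387_pr)
-/

namespace Pool.Agent.H65.MC

open Pool.Agent.H96.MC

theorem uni : T_UNI := by
  intro d
  exact ⟨unif_prob, unif_atom, unif_rot, unif_place⟩

end Pool.Agent.H65.MC
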